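import Pool.Graph.R_seed8.Y180.QTcross

/-!
# A local mean value inequality with two vertical lines
-/

set_option autoImplicit false

open Complex MeasureTheory Filter Topology Set

namespace Pool.Agent.H466.TW

/-- `∫ g(y) e^{-2|y-n|} dy` -/
noncomputable def JJ (g : ℝ → ℝ) (n : ℝ) : ℝ := ∫ y : ℝ, g y * Real.exp (-(2 * |y - n|))

lemma JJ_nonneg {g : ℝ → ℝ} (h : ∀ y, 0 ≤ g y) (n : ℝ) : 0 ≤ JJ g n :=
  integral_nonneg fun y => mul_nonneg (h y) (Real.exp_pos _).le

lemma integrable_exp_abs : Integrable (fun y : ℝ => Real.exp (-|y|)) := by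
  have h := H336R4.PF.integrable_exp_abs (δ := 1) one_pos
  simpa using h

lemma integrable_shift (n : ℝ) : Integrable (fun y : ℝ => Real.exp (-|y - n|)) :=
  integrable_exp_abs.comp_sub_right n

/-- growth `e^{|y|}` suffices for integrability -/
lemma integrable_wt {g : ℝ → ℝ} (hg : Continuous g) {K : ℝ}
    (hb : ∀ y, |g y| ≤ K * Real.exp |y|) (n : ℝ) :
    Integrable (fun y : ℝ => g y * Real.exp (-(2 * |y - n|))) := by
  have hK : 0 ≤ K := by
    have h := (abs_nonneg _).trans (hb 0)
    simpa using h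
  refine ((integrable_shift n).const_mul (K * Real.exp |n|)).mono'
    (by fun_prop) (Eventually.of_forall fun y => ?_)
  rw [norm_mul, Real.norm_eq_abs, Real.norm_eq_abs, abs_of_pos (Real.exp_pos (-(2 * |y - n|)))]
  calc |g y| * Real.exp (-(2 * |y - n|)) ≤ K * Real.exp |y| * Real.exp (-(2 * |y - n|)) :=
        mul_le_mul_of_nonneg_right (hb y) (Real.exp_pos _).le
    _ = K * Real.exp (|y| + -(2 * |y - n|)) := by rw [Real.exp_add]; ring
    _ ≤ K * Real.exp (|n| + -|y - n|) := by
        apply mul_le_mul_of_nonneg_left _ hK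
        apply Real.exp_le_exp.mpr
        have h1 : |y| ≤ |y - n| + |n| := by
          have := abs_add_le (y - n) n
          simpa using this
        linarith
    _ = K * Real.exp |n| * Real.exp (-|y - n|) := by rw [Real.exp_add]; ring

/-- the mean value inequality -/
theorem two_line {f : ℂ → ℂ} {U : Set ℂ} {a b K : ℝ} (hU : IsOpen U) (hf : DifferentiableOn ℂ f U)
    (hsub : ∀ z : ℂ, a ≤ z.re → z.re ≤ b → z ∈ U)
    (hb : ∀ z : ℂ, a ≤ z.re → z.re ≤ b → ‖f z‖ ≤ K * Real.exp |z.im|) (hab : b - a ≤ 2)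
    {s : ℂ} (h1 : a < s.re) (h2 : s.re < b) {n : ℝ} (hn : |s.im - n| ≤ 1) :
    ‖f s‖ ≤ Real.exp 14 * ((1 / (s.re - a)) * JJ (fun y => ‖f ((a : ℂ) + y * I)‖) n +
      (1 / (b - s.re)) * JJ (fun y => ‖f ((b : ℂ) + y * I)‖) n) := by
  set a' := a - s.re with ha'
  set b' := b - s.re with hb'
  have ha0 : a' < 0 := by linarith
  have hb0 : 0 < b' := by linarith
  have hK : 0 ≤ K := by
    have h := (norm_nonneg _).trans (hb s h1.le h2.le)
    exact nonneg_of_mul_nonneg_left h (Real.exp_pos _)
  set H : ℂ → ℂ := fun z => f (s + z) * cexp (z ^ 2) with hH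
  have hre : ∀ z : ℂ, (s + z).re = s.re + z.re := fun z => add_re _ _
  have him : ∀ z : ℂ, (s + z).im = s.im + z.im := fun z => add_im _ _
  have hsub' : ∀ z : ℂ, a' ≤ z.re → z.re ≤ b' → z ∈ (fun z => s + z) ⁻¹' U := by
    intro z h3 h4
    exact hsub _ (by rw [hre]; linarith) (by rw [hre]; linarith)
  have hsq : a' ^ 2 + b' ^ 2 ≤ 4 := by nlinarith
  have hcr := Pool.Agent.Y180.QTcross.cross (H := H) (U := (fun z => s + z) ⁻¹' U) (a := a')
    (b := b') (C := K * Real.exp |s.im| * Real.exp (a' ^ 2 + b' ^ 2 + 2 ^ 2)) (η := 1)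
    (hU.preimage (by fun_prop)) ha0 hb0 one_pos hsub' ?_ ?_
  · have h0 : H 0 = f s := by simp [hH]
    rw [h0] at hcr
    have hnorm : 2 * Real.pi * ‖f s‖ = ‖(2 * Real.pi * f s : ℂ)‖ := by
      rw [norm_mul, norm_mul, Complex.norm_real, Real.norm_eq_abs, abs_of_pos Real.pi_pos]
      simp
    have hline : ∀ c : ℝ, a' ≤ c → c ≤ b' → c ≠ 0 →
        ‖∫ y : ℝ, H (c + y * I) / (c + y * I)‖ ≤
          Real.exp 10 * ((1 / |c|) * JJ (fun y => ‖f (((s.re + c : ℝ) : ℂ) + y * I)‖) n) := by
      intro c hc1 hc2 hc0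
      have hcont : Continuous fun y : ℝ => ‖f (((s.re + c : ℝ) : ℂ) + y * I)‖ := by
        have h5 : ContinuousOn f U := hf.continuousOn
        refine (h5.comp_continuous (by fun_prop) fun y => hsub _ ?_ ?_).norm
        · simp; linarith
        · simp; linarith
      have hgr : ∀ y : ℝ, |‖f (((s.re + c : ℝ) : ℂ) + y * I)‖| ≤ K * Real.exp |y| := by
        intro y
        rw [abs_norm]
        refine (hb _ ?_ ?_).trans (le_of_eq ?_)
        · simp; linarith
        · simp; linarith
        · simp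
      have hint := integrable_wt hcont hgr n
      have hshift : Integrable (fun y : ℝ => ‖f (((s.re + c : ℝ) : ℂ) + (y + s.im : ℝ) * I)‖ *
          Real.exp (-(2 * |y + s.im - n|))) := by
        have := hint.comp_add_right s.im
        exact this
      have hint_eq : ∫ y : ℝ, ‖f (((s.re + c : ℝ) : ℂ) + (y + s.im : ℝ) * I)‖ *
          Real.exp (-(2 * |y + s.im - n|)) = JJ (fun y => ‖f (((s.re + c : ℝ) : ℂ) + y * I)‖) n := by
        unfold JJ
        exact integral_add_right_eq_self (fun y : ℝ => ‖f (((s.re + c : ℝ) : ℂ) + (y : ℝ) * I)‖ *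
          Real.exp (-(2 * |y - n|))) s.im
      have hc00 : 0 < |c| := abs_pos.mpr hc0
      refine (norm_integral_le_of_norm_le (g := fun y => Real.exp 10 / |c| *
        (‖f (((s.re + c : ℝ) : ℂ) + (y + s.im : ℝ) * I)‖ * Real.exp (-(2 * |y + s.im - n|))))
        (hshift.const_mul _) (Eventually.of_forall fun y => ?_)).trans (le_of_eq ?_)
      · rw [norm_div]
        have e1 : |c| ≤ ‖(c : ℂ) + y * I‖ := by
          have := Complex.abs_re_le_norm ((c : ℂ) + y * I)
          simpa using this
        have e2 : ‖H (c + y * I)‖ ≤ ‖f (((s.re + c : ℝ) : ℂ) + (y + s.im : ℝ) * I)‖ *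
            (Real.exp 8 * Real.exp (-2 * |y|)) := by
          simp only [hH, norm_mul]
          have e3 : s + ((c : ℂ) + y * I) = ((s.re + c : ℝ) : ℂ) + (y + s.im : ℝ) * I := by
            apply Complex.ext
            · simp
            · simp; ring
          rw [e3]
          apply mul_le_mul_of_nonneg_left _ (norm_nonneg _)
          have h5 := Pool.Agent.Y180.QTcross.exp_sq_le (a := a') (b := b') (η := 2)
            ((c : ℂ) + y * I) (by simp; exact hc1) (by simp; exact hc2)
          refine h5.trans ?_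
          have e4 : ((c : ℂ) + y * I).im = y := by simp
          rw [e4]
          apply mul_le_mul_of_nonneg_right _ (Real.exp_pos _).le
          apply Real.exp_le_exp.mpr
          linarith
        have e5 : Real.exp 8 * Real.exp (-2 * |y|) ≤ Real.exp 10 * Real.exp (-(2 * |y + s.im - n|)) := by
          rw [← Real.exp_add, ← Real.exp_add]
          apply Real.exp_le_exp.mpr
          have : |y + s.im - n| ≤ |y| + |s.im - n| := by
            have := abs_add_le y (s.im - n)
            have e : y + s.im - n = y + (s.im - n) := by ring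
            rw [e]; exact this
          linarith
        calc ‖H (c + y * I)‖ / ‖(c : ℂ) + y * I‖ ≤ ‖H (c + y * I)‖ / |c| :=
              div_le_div_of_nonneg_left (norm_nonneg _) hc00 e1
          _ ≤ (‖f (((s.re + c : ℝ) : ℂ) + (y + s.im : ℝ) * I)‖ *
              (Real.exp 10 * Real.exp (-(2 * |y + s.im - n|)))) / |c| := by
              apply div_le_div_of_nonneg_right _ hc00.le
              exact e2.trans (mul_le_mul_of_nonneg_left e5 (norm_nonneg _))
          _ = _ := by ring
      · rw [integral_const_mul, hint_eq]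
        ring
    have e1 : s.re + b' = b := by rw [hb']; ring
    have e2 : s.re + a' = a := by rw [ha']; ring
    have g1 := hline b' (by linarith) le_rfl hb0.ne'
    have g2 := hline a' le_rfl (by linarith) ha0.ne
    rw [e1] at g1
    rw [e2] at g2
    have e3 : |b'| = b - s.re := abs_of_pos hb0
    have e4 : |a'| = s.re - a := by rw [abs_of_neg ha0, ha']; ring
    rw [e3] at g1
    rw [e4] at g2
    have h5 : 2 * Real.pi * ‖f s‖ ≤ ‖∫ y : ℝ, H (b' + y * I) / (b' + y * I)‖ +
        ‖∫ y : ℝ, H (a' + y * I) / (a' + y * I)‖ := by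
      rw [hnorm, ← hcr]
      exact norm_sub_le _ _
    have hJa := JJ_nonneg (g := fun y => ‖f ((a : ℂ) + y * I)‖) (fun y => norm_nonneg _) n
    have hJb := JJ_nonneg (g := fun y => ‖f ((b : ℂ) + y * I)‖) (fun y => norm_nonneg _) n
    have h6 : ‖f s‖ ≤ 2 * Real.pi * ‖f s‖ := by
      have := Real.pi_gt_three
      nlinarith [norm_nonneg (f s)]
    have hpa : 0 ≤ 1 / (s.re - a) := by
      apply one_div_nonneg.mpr; linarith
    have hpb : 0 ≤ 1 / (b - s.re) := by
      apply one_div_nonneg.mpr; linarith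
    calc ‖f s‖ ≤ _ := h6
      _ ≤ _ := h5
      _ ≤ _ := add_le_add g1 g2
      _ = Real.exp 10 * ((1 / (s.re - a)) * JJ (fun y => ‖f ((a : ℂ) + y * I)‖) n +
      (1 / (b - s.re)) * JJ (fun y => ‖f ((b : ℂ) + y * I)‖) n) := by ring
      _ ≤ _ := by
        apply mul_le_mul_of_nonneg_right (Real.exp_le_exp.mpr (by norm_num))
        positivity
  · -- differentiability
    have h5 : DifferentiableOn ℂ (fun z => f (s + z)) ((fun z => s + z) ⁻¹' U) :=
      hf.comp (by fun_prop) (fun z hz => hz)
    exact h5.mul (by fun_prop)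
  · intro z h3 h4
    simp only [hH, norm_mul]
    have h5 := hb (s + z) (by rw [hre]; linarith) (by rw [hre]; linarith)
    have h6 := Pool.Agent.Y180.QTcross.exp_sq_le (a := a') (b := b') (η := 2) z h3 h4
    rw [him] at h5
    calc ‖f (s + z)‖ * ‖cexp (z ^ 2)‖
        ≤ (K * Real.exp |s.im + z.im|) * (Real.exp (a' ^ 2 + b' ^ 2 + 2 ^ 2) *
          Real.exp (-2 * |z.im|)) := mul_le_mul h5 h6 (norm_nonneg _) (by positivity)
      _ ≤ (K * (Real.exp |s.im| * Real.exp |z.im|)) * (Real.exp (a' ^ 2 + b' ^ 2 + 2 ^ 2) *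
          Real.exp (-2 * |z.im|)) := by
          gcongr
          rw [← Real.exp_add]
          exact Real.exp_le_exp.mpr (abs_add_le _ _)
      _ = K * Real.exp |s.im| * Real.exp (a' ^ 2 + b' ^ 2 + 2 ^ 2) *
          (Real.exp |z.im| * Real.exp (-2 * |z.im|)) := by ring
      _ = _ := by
          rw [← Real.exp_add]
          congr 2
          ring

end Pool.Agent.H466.TW
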