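import Pool.Agent.H466.TW.B1
import Pool.Graph.R_seed8.Y19.QT.ZD

/-!
# Mean values over the family, union bound
-/

set_option autoImplicit false

open Complex MeasureTheory Filter Topology Set Finset

namespace Pool.Agent.H466.TW

open Pool.Agent.Y19.QT
open Pool.Agent.Y474.QTZ6 (YY ff)

theorem union_bound {ι : Type*} [Nonempty ι] (D : Finset ℤ) (q : ι → ℤ → ℝ) (w : ι → ℝ) (R : ℝ)
    (hq : ∀ n d, 0 ≤ q n d) (hw : Summable w) (hw0 : ∀ n, 0 ≤ w n) (hR : 0 ≤ R)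
    (h : ∀ n, ∑ d ∈ D, q n d ≤ R * w n) (S : Finset ℤ) (hS : S ⊆ D)
    (hbad : ∀ d ∈ S, ∃ n, 1 < q n d) : (S.card : ℝ) ≤ R * ∑' n, w n := by
  classical
  choose! f hf using hbad
  set N0 : Finset ι := S.image f with hN0
  have h1 : (S.card : ℝ) ≤ ∑ d ∈ S, ∑ n ∈ N0, q n d := by
    have e : (S.card : ℝ) = ∑ d ∈ S, (1 : ℝ) := by simp
    rw [e]
    refine Finset.sum_le_sum fun d hd => ?_
    refine (hf d hd).le.trans ?_
    exact Finset.single_le_sum (f := fun n => q n d) (fun n _ => hq n d)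
      (Finset.mem_image_of_mem f hd)
  refine h1.trans ?_
  rw [Finset.sum_comm]
  calc ∑ n ∈ N0, ∑ d ∈ S, q n d ≤ ∑ n ∈ N0, R * w n := by
        refine Finset.sum_le_sum fun n _ => le_trans ?_ (h n)
        exact Finset.sum_le_sum_of_subset_of_nonneg hS fun d _ _ => hq n d
    _ = R * ∑ n ∈ N0, w n := by rw [Finset.mul_sum]
    _ ≤ R * ∑' n, w n := by
        apply mul_le_mul_of_nonneg_left _ hR
        exact hw.sum_le_tsum N0 fun n _ => hw0 n

lemma pow_exp (B : ℕ) {u : ℝ} (hu : 0 ≤ u) : (1 + u) ^ B ≤ B.factorial * Real.exp (1 + u) := by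
  have h := Real.pow_div_factorial_le_exp (1 + u) (by linarith) B
  have h2 : (0 : ℝ) < B.factorial := by exact_mod_cast B.factorial_pos
  rw [div_le_iff₀ h2] at h
  linarith

lemma int_shift (n : ℝ) : ∫ y : ℝ, Real.exp (-|y - n|) = 2 := by
  have h1 : ∫ y : ℝ, Real.exp (-|y - n|) = ∫ y : ℝ, Real.exp (-|y|) :=
    integral_sub_right_eq_self (fun y : ℝ => Real.exp (-|y|)) n
  rw [h1, integral_comp_abs (f := fun x => Real.exp (-x)), integral_exp_neg_Ioi_zero, mul_one]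

theorem JJ_sum_le (D : Finset ℤ) (g : ℤ → ℝ → ℝ) (hg : ∀ d ∈ D, Continuous (g d))
    (hgr : ∀ d ∈ D, ∃ K : ℝ, ∀ y, |g d y| ≤ K * Real.exp |y|) (B : ℕ) {R : ℝ} (hR : 0 ≤ R)
    (h : ∀ y, ∑ d ∈ D, g d y ≤ R * (1 + |y|) ^ B) (n : ℝ) :
    ∑ d ∈ D, JJ (g d) n ≤ 6 * B.factorial * (R * (1 + |n|) ^ B) := by
  have hint : ∀ d ∈ D, Integrable (fun y : ℝ => g d y * Real.exp (-(2 * |y - n|))) := by
    intro d hd
    obtain ⟨K, hK⟩ := hgr d hd
    exact integrable_wt (hg d hd) hK n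
  unfold JJ
  rw [← integral_finsetSum _ hint]
  have hF : (0 : ℝ) < B.factorial := by exact_mod_cast B.factorial_pos
  have hb : Integrable (fun y : ℝ => R * (1 + |n|) ^ B * (B.factorial * Real.exp 1) *
      Real.exp (-|y - n|)) := (integrable_shift n).const_mul _
  calc ∫ y : ℝ, ∑ d ∈ D, g d y * Real.exp (-(2 * |y - n|))
      ≤ ∫ y : ℝ, R * (1 + |n|) ^ B * (B.factorial * Real.exp 1) * Real.exp (-|y - n|) := by
        refine integral_mono (integrable_finsetSum _ hint) hb fun y => ?_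
        simp only
        rw [← Finset.sum_mul]
        have h1 : 1 + |y| ≤ (1 + |n|) * (1 + |y - n|) := by
          have h2 : |y| ≤ |y - n| + |n| := by
            have := abs_add_le (y - n) n
            simpa using this
          nlinarith [abs_nonneg n, abs_nonneg (y - n), mul_nonneg (abs_nonneg n) (abs_nonneg (y - n))]
        have h3 : (1 + |y|) ^ B ≤ (1 + |n|) ^ B * (B.factorial * Real.exp (1 + |y - n|)) := by
          calc (1 + |y|) ^ B ≤ ((1 + |n|) * (1 + |y - n|)) ^ B :=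
                pow_le_pow_left₀ (by positivity) h1 B
            _ = (1 + |n|) ^ B * (1 + |y - n|) ^ B := mul_pow _ _ _
            _ ≤ _ := mul_le_mul_of_nonneg_left (pow_exp B (abs_nonneg _)) (by positivity)
        calc (∑ d ∈ D, g d y) * Real.exp (-(2 * |y - n|))
            ≤ (R * (1 + |y|) ^ B) * Real.exp (-(2 * |y - n|)) :=
              mul_le_mul_of_nonneg_right (h y) (Real.exp_pos _).le
          _ ≤ (R * ((1 + |n|) ^ B * (B.factorial * Real.exp (1 + |y - n|)))) *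
              Real.exp (-(2 * |y - n|)) := by gcongr
          _ = R * (1 + |n|) ^ B * B.factorial * (Real.exp (1 + |y - n|) *
              Real.exp (-(2 * |y - n|))) := by ring
          _ = R * (1 + |n|) ^ B * (B.factorial * Real.exp 1) * Real.exp (-|y - n|) := by
              rw [← Real.exp_add]
              have e : Real.exp (1 + |y - n| + -(2 * |y - n|)) = Real.exp 1 * Real.exp (-|y - n|) := by
                rw [← Real.exp_add]
                congr 1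
                ring
              rw [e]
              ring
    _ = R * (1 + |n|) ^ B * (B.factorial * Real.exp 1) * 2 := by
        rw [integral_const_mul, int_shift]
    _ ≤ R * (1 + |n|) ^ B * (B.factorial * 3) * 2 := by
        have := Real.exp_one_lt_d9
        gcongr
        linarith
    _ = _ := by ring

variable {Q : ℕ} {lam : ℕ → ℝ}

/-- growth of the `L`-functions -/
lemma ell_growth (T : Twists Q lam) {d : ℤ} (hd : Squarefree d) : ∃ K : ℝ, 0 ≤ K ∧ ∀ s : ℂ,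
    1 / 4 ≤ s.re → s.re ≤ 3 → ‖T.ell d s‖ ≤ K * Real.exp (|s.im| / 4) := by
  obtain ⟨K, hK⟩ := (Pool.Agent.Y703.QT8.T8a T d hd).2.2.2
  refine ⟨max K 0, le_max_right _ _, fun s h1 h2 => (hK s h1 h2).trans ?_⟩
  have h3 : Real.pi / 32 * |s.im| ≤ |s.im| / 4 := by
    have := Real.pi_lt_four
    nlinarith [abs_nonneg s.im]
  exact mul_le_mul (le_max_left _ _) (Real.exp_le_exp.mpr h3) (Real.exp_pos _).le (le_max_right _ _)

lemma ell_sq_growth (T : Twists Q lam) {d : ℤ} (hd : Squarefree d) : ∃ K : ℝ, 0 ≤ K ∧ ∀ s : ℂ,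
    1 / 4 ≤ s.re → s.re ≤ 3 → ‖T.ell d s ^ 2‖ ≤ K * Real.exp |s.im| := by
  obtain ⟨K, hK0, hK⟩ := ell_growth T hd
  refine ⟨K ^ 2, by positivity, fun s h1 h2 => ?_⟩
  rw [norm_pow]
  calc ‖T.ell d s‖ ^ 2 ≤ (K * Real.exp (|s.im| / 4)) ^ 2 :=
        pow_le_pow_left₀ (norm_nonneg _) (hK s h1 h2) 2
    _ = K ^ 2 * Real.exp (|s.im| / 4 + |s.im| / 4) := by rw [Real.exp_add]; ring
    _ ≤ K ^ 2 * Real.exp |s.im| := by
        apply mul_le_mul_of_nonneg_left _ (by positivity)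
        apply Real.exp_le_exp.mpr
        linarith [abs_nonneg s.im]

/-- M1 -/
theorem mean_ell (T : Twists Q lam) : ∃ (C : ℝ) (A B : ℕ), 0 < C ∧ ∀ (X : ℕ) (n : ℝ), 3 ≤ X →
    ∑ d ∈ sqf X, JJ (fun y : ℝ => ‖T.ell d (((1 / 2 : ℝ) : ℂ) + y * I) ^ 2‖) n ≤
      C * (1 + |n|) ^ B * X * Real.log X ^ A := by
  obtain ⟨C, A, B, hC, h⟩ := Pool.Agent.Y641.QTHZ3.HZ3b T
    (fun T => Pool.Agent.Y46.QTH8.H8b T) (fun T => H11 T)
  refine ⟨C, A, B, hC, fun X n hX => ?_⟩
  refine le_trans (Finset.sum_le_sum fun d hd => ?_) (h X (1 / 2) n hX le_rfl (by norm_num))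
  have hsq := (mem_sqf.1 hd).2
  obtain ⟨K, hK0, hK⟩ := ell_growth T hsq
  have hcont : Continuous fun y : ℝ => ‖T.ell d (((1 / 2 : ℝ) : ℂ) + y * I)‖ := by
    have h1 := (Pool.Agent.Y703.QT8.T8a T d hsq).1.continuous
    fun_prop
  have hb : ∀ y : ℝ, ‖T.ell d (((1 / 2 : ℝ) : ℂ) + y * I)‖ ^ 2 ≤ K ^ 2 * Real.exp (|y| / 2) := by
    intro y
    have h1 := hK (((1 / 2 : ℝ) : ℂ) + y * I) (by simp; norm_num) (by simp; norm_num)
    have e : (((1 / 2 : ℝ) : ℂ) + y * I).im = y := by simp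
    rw [e] at h1
    calc ‖T.ell d (((1 / 2 : ℝ) : ℂ) + y * I)‖ ^ 2 ≤ (K * Real.exp (|y| / 4)) ^ 2 :=
          pow_le_pow_left₀ (norm_nonneg _) h1 2
      _ = K ^ 2 * (Real.exp (|y| / 4) * Real.exp (|y| / 4)) := by ring
      _ = _ := by
          rw [← Real.exp_add]
          congr 2
          ring
  have hI : Integrable fun y : ℝ => ‖T.ell d (((1 / 2 : ℝ) : ℂ) + y * I)‖ ^ 2 *
      Real.exp (-|y - n|) := by
    have h0 := (H336R4.PF.integrable_exp_abs (δ := 1 / 2) (by norm_num)).comp_sub_right n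
    refine (h0.const_mul (K ^ 2 * Real.exp (|n| / 2))).mono' (by fun_prop)
      (Eventually.of_forall fun y => ?_)
    rw [Real.norm_eq_abs, abs_of_nonneg (by positivity)]
    calc ‖T.ell d (((1 / 2 : ℝ) : ℂ) + y * I)‖ ^ 2 * Real.exp (-|y - n|)
        ≤ K ^ 2 * Real.exp (|y| / 2) * Real.exp (-|y - n|) :=
          mul_le_mul_of_nonneg_right (hb y) (Real.exp_pos _).le
      _ = K ^ 2 * Real.exp (|y| / 2 + -|y - n|) := by rw [Real.exp_add]; ring
      _ ≤ K ^ 2 * Real.exp (|n| / 2 + -(1 / 2) * |y - n|) := by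
          apply mul_le_mul_of_nonneg_left _ (by positivity)
          apply Real.exp_le_exp.mpr
          have h2 : |y| ≤ |y - n| + |n| := by
            have := abs_add_le (y - n) n
            simpa using this
          linarith
      _ = _ := by rw [Real.exp_add]; ring
  unfold JJ
  refine integral_mono_of_nonneg (Eventually.of_forall fun y => by positivity) hI
    (Eventually.of_forall fun y => ?_)
  simp only
  rw [norm_pow]
  apply mul_le_mul_of_nonneg_left _ (by positivity)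
  apply Real.exp_le_exp.mpr
  linarith [abs_nonneg (y - n)]

/-- M2 -/
theorem mean_Mol (T : Twists Q lam) : ∃ (C : ℝ) (A : ℕ), 0 < C ∧ ∀ (X : ℕ) (a n : ℝ), 3 ≤ X →
    1 / 2 ≤ a → ∑ d ∈ sqf X, JJ (fun y : ℝ => ‖Mol Q lam (YY X) d ((a : ℂ) + y * I) ^ 2‖) n ≤
      C * X * Real.log X ^ A := by
  obtain ⟨C, A, hC, h⟩ := Pool.Agent.Y141.QT12c2.T12c2 Q lam T.hecke
  refine ⟨6 * C, A, by positivity, fun X a n hX ha => ?_⟩
  have hX1 : (1 : ℝ) ≤ X := by exact_mod_cast (by omega : 1 ≤ X)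
  have hY1 : 1 ≤ YY X := by
    unfold YY
    rw [Nat.one_le_floor_iff]
    exact Real.one_le_rpow hX1 (by norm_num)
  have hY4 : (YY X : ℝ) ^ 4 ≤ X := by
    have h1 : (YY X : ℝ) ≤ (X : ℝ) ^ (1 / 4 : ℝ) := Nat.floor_le (by positivity)
    calc (YY X : ℝ) ^ 4 ≤ ((X : ℝ) ^ (1 / 4 : ℝ)) ^ 4 := pow_le_pow_left₀ (Nat.cast_nonneg _) h1 4
      _ = X := by
          rw [← Real.rpow_natCast, ← Real.rpow_mul (by linarith)]
          norm_num
  have h1 := JJ_sum_le (sqf X) (fun d y => ‖Mol Q lam (YY X) d ((a : ℂ) + y * I) ^ 2‖) ?_ ?_ 0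
    (R := C * X * Real.log X ^ A) ?_ ?_ n
  · simp only [pow_zero, mul_one, Nat.factorial_zero, Nat.cast_one] at h1
    refine h1.trans (le_of_eq ?_)
    ring
  · intro d _
    have h1 := (Pool.Agent.Y180.QT12b2.Mol_diff Q lam (YY X) d).continuous
    fun_prop
  · intro d _
    refine ⟨(∑ h ∈ Finset.Icc 1 (YY X), |muE Q lam h|) ^ 2, fun y => ?_⟩
    rw [abs_norm, norm_pow]
    have h1 := Pool.Agent.Y180.QT12b2.Mol_bound Q lam (YY X) d (s := (a : ℂ) + y * I)
      (by simp; linarith)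
    calc ‖Mol Q lam (YY X) d ((a : ℂ) + y * I)‖ ^ 2
        ≤ (∑ h ∈ Finset.Icc 1 (YY X), |muE Q lam h|) ^ 2 :=
          pow_le_pow_left₀ (norm_nonneg _) h1 2
      _ ≤ _ := le_mul_of_one_le_right (by positivity) (Real.one_le_exp (abs_nonneg _))
  · have := Real.log_nonneg hX1
    positivity
  · intro y
    rw [pow_zero, mul_one]
    have h2 := h X (YY X) ((a : ℂ) + y * I) hX hY1 hY4 (by simp; linarith)
    have e : ((a : ℂ) + y * I).re = a := by simp
    rw [e, max_eq_left (by linarith), mul_zero, Real.rpow_zero, mul_one] at h2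
    simpa only [norm_pow] using h2

/-- growth of `ff` -/
lemma ff_growth (T : Twists Q lam) (X : ℕ) {d : ℤ} (hd : Squarefree d) : ∃ K : ℝ, 0 ≤ K ∧ ∀ s : ℂ,
    1 / 4 ≤ s.re → s.re ≤ 3 → ‖ff T (YY X) d s‖ ≤ K * Real.exp |s.im| := by
  obtain ⟨K, hK0, hK⟩ := ell_growth T hd
  set M := ∑ h ∈ Finset.Icc 1 (YY X), |muE Q lam h| with hM
  have hM0 : 0 ≤ M := Finset.sum_nonneg fun _ _ => abs_nonneg _
  have hc : 0 ≤ T.c := by linarith [T.one_le_c]
  refine ⟨K * T.c * M + 1, by positivity, fun s h1 h2 => ?_⟩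
  unfold ff
  have e1 : ‖T.Lq d s‖ ≤ K * Real.exp (|s.im| / 4) * T.c := by
    have e : T.Lq d s = T.ell d s * Pool.Agent.Y180.QT12b2.Ep T d s := rfl
    rw [e, norm_mul]
    exact mul_le_mul (hK s h1 h2) (Pool.Agent.Y180.QT12b2.Ep_bound T hd h1) (norm_nonneg _)
      (by positivity)
  have e2 := Pool.Agent.Y180.QT12b2.Mol_bound Q lam (YY X) d (s := s) (by linarith)
  have e3 : Real.exp (|s.im| / 4) ≤ Real.exp |s.im| := by
    apply Real.exp_le_exp.mpr
    linarith [abs_nonneg s.im]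
  have e4 : 1 ≤ Real.exp |s.im| := Real.one_le_exp (abs_nonneg _)
  calc ‖T.Lq d s * Mol Q lam (YY X) d s - 1‖ ≤ ‖T.Lq d s * Mol Q lam (YY X) d s‖ + ‖(1 : ℂ)‖ :=
        norm_sub_le _ _
    _ = ‖T.Lq d s‖ * ‖Mol Q lam (YY X) d s‖ + 1 := by rw [norm_mul, norm_one]
    _ ≤ (K * Real.exp (|s.im| / 4) * T.c) * M + 1 := by
        gcongr
    _ ≤ (K * Real.exp |s.im| * T.c) * M + Real.exp |s.im| := by
        gcongr
    _ = _ := by ring

/-- M3 -/
theorem mean_ff (T : Twists Q lam) : ∃ (C : ℝ) (A B : ℕ), 0 < C ∧ ∀ (X : ℕ) (δ a n : ℝ), 3 ≤ X →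
    1 / Real.log X ≤ δ → δ ≤ 1 / 8 → 1 / 2 + 3 * δ ≤ a → a ≤ 1 + δ →
    ∑ d ∈ sqf X, JJ (fun y : ℝ => ‖ff T (YY X) d ((a : ℂ) + y * I)‖) n ≤
      C * (1 + |n|) ^ B * (X : ℝ) ^ (1 - δ / 4) * Real.log X ^ A := by
  obtain ⟨C, A, B, hC, h⟩ := Pool.Agent.Y474.QTHZ6.mean_boxH T (Pool.Agent.Y369.QTZ1.Z1 T)
    (Pool.Agent.Y203.QTZ2.Z2 Q lam T.hecke) (HZ3 T)
  refine ⟨6 * B.factorial * C, A, B, by positivity, fun X δ a n hX h1 h2 h3 h4 => ?_⟩
  have hX1 : (1 : ℝ) ≤ X := by exact_mod_cast (by omega : 1 ≤ X)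
  have hL := Real.log_nonneg hX1
  have hδ0 : 0 < δ := by
    refine lt_of_lt_of_le ?_ h1
    have : 0 < Real.log X := Real.log_pos (by exact_mod_cast (by omega : 1 < X))
    positivity
  have h5 := JJ_sum_le (sqf X) (fun d y => ‖ff T (YY X) d ((a : ℂ) + y * I)‖) ?_ ?_ B
    (R := C * (X : ℝ) ^ (1 - δ / 4) * Real.log X ^ A) (by positivity) ?_ n
  · refine h5.trans (le_of_eq ?_)
    ring
  · intro d hd
    have hsq := (mem_sqf.1 hd).2
    have h6 := (Pool.Agent.Y474.QTZ6.ff_diff T (YY X) hsq).continuousOn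
    refine (h6.comp_continuous (by fun_prop) fun y => ?_).norm
    show 1 / 4 < ((a : ℂ) + y * I).re
    simp; linarith
  · intro d hd
    obtain ⟨K, hK0, hK⟩ := ff_growth T X (mem_sqf.1 hd).2
    refine ⟨K, fun y => ?_⟩
    rw [abs_norm]
    have h6 := hK ((a : ℂ) + y * I) (by simp; linarith) (by simp; linarith)
    simpa using h6
  · intro y
    have h6 := h X δ |y| ((a : ℂ) + y * I) hX h1 h2 (abs_nonneg _) (by simp; linarith)
      (by simp; linarith) (by simp)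
    refine h6.trans (le_of_eq ?_)
    ring

end Pool.Agent.H466.TW
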