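import Pool.Agent.H466.TW.B2

/-!
# The good discriminants
-/

set_option autoImplicit false

open Complex MeasureTheory Filter Topology Set Finset

namespace Pool.Agent.H466.TW

open Pool.Agent.Y19.QT
open Pool.Agent.Y474.QTZ6 (YY ff)

variable {Q : ℕ} {lam : ℕ → ℝ}

/-- `log X (2 + |t|)` -/
noncomputable def EE (X : ℕ) (t : ℝ) : ℝ := Real.log X * (2 + |t|)

/-- `log log X + log (2 + |t|)` -/
noncomputable def el (X : ℕ) (t : ℝ) : ℝ := Real.log (EE X t)

lemma EE_ge {X : ℕ} (hX : 3 ≤ X) (t : ℝ) : 2 ≤ EE X t := by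
  have h1 := Pool.Agent.Y703.QT12.log_ge_one hX
  unfold EE
  nlinarith [abs_nonneg t]

lemma el_ge {X : ℕ} (hX : 3 ≤ X) (t : ℝ) : 1 / 2 ≤ el X t := by
  have h1 := EE_ge hX t
  have h2 := Real.log_le_log (by norm_num) h1
  have h3 := Real.log_two_gt_d9
  unfold el
  linarith

/-- the constant in the mean value inequality -/
noncomputable def c0 : ℝ := 4 * Real.exp 14

lemma c0_pos : 0 < c0 := by unfold c0; positivity

/-- the good discriminants -/
structure Good (T : Twists Q lam) (w X : ℕ) (d : ℤ) : Prop where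
  ell : ∀ n : ℤ, JJ (fun y : ℝ => ‖T.ell d (((1 / 2 : ℝ) : ℂ) + y * I) ^ 2‖) n ≤ EE X n ^ w
  mol1 : ∀ n : ℤ, JJ (fun y : ℝ => ‖Mol Q lam (YY X) d (((1 / 2 : ℝ) : ℂ) + y * I) ^ 2‖) n ≤ EE X n ^ w
  mol2 : ∀ n : ℤ, JJ (fun y : ℝ => ‖Mol Q lam (YY X) d (((2 : ℝ) : ℂ) + y * I) ^ 2‖) n ≤ EE X n ^ w
  ff : ∀ (n : ℤ) (δ : ℝ), δ = 4 * (w + 1) * el X n / Real.log X → δ ≤ 1 / 8 →
    (JJ (fun y : ℝ => ‖ff T (YY X) d (((1 / 2 + 3 * δ : ℝ) : ℂ) + y * I)‖) n +
      JJ (fun y : ℝ => ‖ff T (YY X) d (((1 + δ : ℝ) : ℂ) + y * I)‖) n) * (c0 * Real.log X) ≤ 1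

lemma pow_absorb {L E : ℝ} {u : ℝ} (hL : 1 ≤ L) (hu : 0 ≤ u) (hE : E = L * (2 + u)) {A B K w : ℕ}
    (hw : A + K + B + 2 ≤ w) : (1 + u) ^ B * L ^ A / E ^ w ≤ (L ^ K)⁻¹ * ((1 + u) ^ 2)⁻¹ := by
  have hL0 : 0 < L := by linarith
  have h1u : 1 ≤ 1 + u := by linarith
  have hE0 : 0 < E := by rw [hE]; positivity
  rw [div_le_iff₀ (by positivity)]
  have e1 : L ^ (A + K) * (1 + u) ^ (B + 2) ≤ E ^ w := by
    calc L ^ (A + K) * (1 + u) ^ (B + 2) ≤ L ^ w * (1 + u) ^ w := by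
          have g1 : L ^ (A + K) ≤ L ^ w := pow_le_pow_right₀ hL (by omega)
          have g2 : (1 + u) ^ (B + 2) ≤ (1 + u) ^ w := pow_le_pow_right₀ h1u (by omega)
          exact mul_le_mul g1 g2 (by positivity) (by positivity)
      _ = (L * (1 + u)) ^ w := (mul_pow _ _ _).symm
      _ ≤ E ^ w := by
          apply pow_le_pow_left₀ (by positivity)
          rw [hE]
          nlinarith
  calc (1 + u) ^ B * L ^ A = (L ^ K)⁻¹ * ((1 + u) ^ 2)⁻¹ * (L ^ (A + K) * (1 + u) ^ (B + 2)) := by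
        rw [pow_add, pow_add]
        field_simp
    _ ≤ _ := mul_le_mul_of_nonneg_left e1 (by positivity)

lemma summ_inv_sq : Summable fun n : ℤ => ((1 + |(n : ℝ)|) ^ 2)⁻¹ := by
  have h := Real.summable_one_div_int_add_rpow
  have h1 : Summable fun n : ℤ => 1 / |(n : ℝ) + 1 / 2| ^ (2 : ℝ) := by
    have := (h (1 / 2) 2).mpr (by norm_num)
    exact this
  refine Summable.of_nonneg_of_le (fun n => by positivity) (fun n => ?_) h1
  rw [Real.rpow_two, one_div]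
  have h2 : |(n : ℝ) + 1 / 2| ≤ 1 + |(n : ℝ)| := by
    refine (abs_add_le _ _).trans ?_
    rw [abs_of_pos (show (0 : ℝ) < 1 / 2 by norm_num)]
    linarith
  have h3 : 0 < |(n : ℝ) + 1 / 2| := by
    rw [abs_pos]
    intro h4
    have h5 : (2 * n + 1 : ℝ) = 0 := by linarith
    have h6 : (2 * n + 1 : ℤ) = 0 := by exact_mod_cast h5
    omega
  gcongr

theorem good_of (T : Twists Q lam) (K : ℕ) : ∃ (C : ℝ) (w : ℕ), 0 < C ∧ 1 ≤ w ∧ ∀ X : ℕ, 3 ≤ X →
    ∃ S : Finset ℤ, S ⊆ sqf X ∧ (S.card : ℝ) ≤ C * X / Real.log X ^ K ∧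
      ∀ d ∈ sqf X, d ∉ S → Good T w X d := by
  classical
  obtain ⟨C1, A1, B1, hC1, h1⟩ := mean_ell T
  obtain ⟨C2, A2, hC2, h2⟩ := mean_Mol T
  obtain ⟨C3, A3, B3, hC3, h3⟩ := mean_ff T
  set A := A1 + A2 + A3 + 1 with hA
  set B := B1 + B3 with hB
  set w := A + K + B + 2 with hw
  set R1 : ℝ := C1 + 2 * C2 + 2 * c0 * C3 with hR1
  have hc0 := c0_pos
  set Sg := ∑' n : ℤ, ((1 + |(n : ℝ)|) ^ 2)⁻¹ with hSg
  have hSg : 0 ≤ Sg := tsum_nonneg fun n => by positivity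
  refine ⟨R1 * Sg + 1, w, by positivity, by omega, fun X hX => ?_⟩
  have hL := Pool.Agent.Y703.QT12.log_ge_one hX
  set L := Real.log X with hLdef
  have hL0 : 0 < L := by linarith
  have hX0 : (0 : ℝ) < X := by exact_mod_cast (by omega : 0 < X)
  set δ : ℤ → ℝ := fun n => 4 * (w + 1) * el X n / L with hδ
  set q1 : ℤ → ℤ → ℝ := fun n d => JJ (fun y : ℝ => ‖T.ell d (((1 / 2 : ℝ) : ℂ) + y * I) ^ 2‖) n with hq1
  set q2 : ℤ → ℤ → ℝ := fun n d =>
    JJ (fun y : ℝ => ‖Mol Q lam (YY X) d (((1 / 2 : ℝ) : ℂ) + y * I) ^ 2‖) n with hq2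
  set q3 : ℤ → ℤ → ℝ := fun n d =>
    JJ (fun y : ℝ => ‖Mol Q lam (YY X) d (((2 : ℝ) : ℂ) + y * I) ^ 2‖) n with hq3
  set q4 : ℤ → ℤ → ℝ := fun n d =>
    JJ (fun y : ℝ => ‖ff T (YY X) d (((1 / 2 + 3 * δ n : ℝ) : ℂ) + y * I)‖) n +
      JJ (fun y : ℝ => ‖ff T (YY X) d (((1 + δ n : ℝ) : ℂ) + y * I)‖) n with hq4
  have p1 : ∀ n d, 0 ≤ q1 n d := fun n d => JJ_nonneg (fun y => norm_nonneg _) _
  have p2 : ∀ n d, 0 ≤ q2 n d := fun n d => JJ_nonneg (fun y => norm_nonneg _) _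
  have p3 : ∀ n d, 0 ≤ q3 n d := fun n d => JJ_nonneg (fun y => norm_nonneg _) _
  have p4 : ∀ n d, 0 ≤ q4 n d := fun n d =>
    add_nonneg (JJ_nonneg (fun y => norm_nonneg _) _) (JJ_nonneg (fun y => norm_nonneg _) _)
  have hE2 : ∀ n : ℤ, 2 ≤ EE X n := fun n => EE_ge hX n
  set q : ℤ → ℤ → ℝ := fun n d => q1 n d / EE X n ^ w + q2 n d / EE X n ^ w + q3 n d / EE X n ^ w +
    (if δ n ≤ 1 / 8 then q4 n d * (c0 * L) else 0) with hq
  have hE0 : ∀ n : ℤ, 0 < EE X n ^ w := fun n => pow_pos (by linarith [hE2 n]) w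
  have r1 : ∀ n d, 0 ≤ q1 n d / EE X n ^ w := fun n d => div_nonneg (p1 n d) (hE0 n).le
  have r2 : ∀ n d, 0 ≤ q2 n d / EE X n ^ w := fun n d => div_nonneg (p2 n d) (hE0 n).le
  have r3 : ∀ n d, 0 ≤ q3 n d / EE X n ^ w := fun n d => div_nonneg (p3 n d) (hE0 n).le
  have r4 : ∀ n d, 0 ≤ (if δ n ≤ 1 / 8 then q4 n d * (c0 * L) else 0) := by
    intro n d
    split_ifs
    · exact mul_nonneg (p4 n d) (by positivity)
    · exact le_rfl
  have hqn : ∀ n d, 0 ≤ q n d := fun n d => by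
    simp only [hq]
    linarith [r1 n d, r2 n d, r3 n d, r4 n d]
  have hmean : ∀ n : ℤ, ∑ d ∈ sqf X, q n d ≤ (R1 * X * (L ^ K)⁻¹) * ((1 + |(n : ℝ)|) ^ 2)⁻¹ := by
    intro n
    have hn := abs_nonneg (n : ℝ)
    have hn1 : 1 ≤ 1 + |(n : ℝ)| := by linarith
    simp only [hq]
    rw [Finset.sum_add_distrib, Finset.sum_add_distrib, Finset.sum_add_distrib,
      ← Finset.sum_div, ← Finset.sum_div, ← Finset.sum_div]
    have k1 : (∑ d ∈ sqf X, q1 n d) / EE X n ^ w ≤ C1 * X * ((L ^ K)⁻¹ * ((1 + |(n : ℝ)|) ^ 2)⁻¹) := by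
      have g1 := h1 X n hX
      have g2 := pow_absorb (E := EE X n) hL hn rfl (A := A1) (B := B1) (K := K) (w := w) (by omega)
      calc (∑ d ∈ sqf X, q1 n d) / EE X n ^ w ≤
            (C1 * (1 + |(n : ℝ)|) ^ B1 * X * L ^ A1) / EE X n ^ w :=
            div_le_div_of_nonneg_right g1 (hE0 n).le
        _ = C1 * X * ((1 + |(n : ℝ)|) ^ B1 * L ^ A1 / EE X n ^ w) := by ring
        _ ≤ _ := mul_le_mul_of_nonneg_left g2 (by positivity)
    have k2 : (∑ d ∈ sqf X, q2 n d) / EE X n ^ w ≤ C2 * X * ((L ^ K)⁻¹ * ((1 + |(n : ℝ)|) ^ 2)⁻¹) := by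
      have g1 := h2 X (1 / 2) n hX le_rfl
      have g2 := pow_absorb (E := EE X n) hL hn rfl (A := A2) (B := 0) (K := K) (w := w) (by omega)
      rw [pow_zero, one_mul] at g2
      calc (∑ d ∈ sqf X, q2 n d) / EE X n ^ w ≤ (C2 * X * L ^ A2) / EE X n ^ w :=
            div_le_div_of_nonneg_right g1 (hE0 n).le
        _ = C2 * X * (L ^ A2 / EE X n ^ w) := by ring
        _ ≤ _ := mul_le_mul_of_nonneg_left g2 (by positivity)
    have k3 : (∑ d ∈ sqf X, q3 n d) / EE X n ^ w ≤ C2 * X * ((L ^ K)⁻¹ * ((1 + |(n : ℝ)|) ^ 2)⁻¹) := by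
      have g1 := h2 X 2 n hX (by norm_num)
      have g2 := pow_absorb (E := EE X n) hL hn rfl (A := A2) (B := 0) (K := K) (w := w) (by omega)
      rw [pow_zero, one_mul] at g2
      calc (∑ d ∈ sqf X, q3 n d) / EE X n ^ w ≤ (C2 * X * L ^ A2) / EE X n ^ w :=
            div_le_div_of_nonneg_right g1 (hE0 n).le
        _ = C2 * X * (L ^ A2 / EE X n ^ w) := by ring
        _ ≤ _ := mul_le_mul_of_nonneg_left g2 (by positivity)
    have k4 : (∑ d ∈ sqf X, if δ n ≤ 1 / 8 then q4 n d * (c0 * L) else 0) ≤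
        2 * c0 * C3 * X * ((L ^ K)⁻¹ * ((1 + |(n : ℝ)|) ^ 2)⁻¹) := by
      by_cases hd : δ n ≤ 1 / 8
      · simp only [if_pos hd]
        rw [← Finset.sum_mul]
        have hel := el_ge hX n
        have hδL : 1 / L ≤ δ n := by
          simp only [hδ]
          apply div_le_div_of_nonneg_right _ hL0.le
          have : (0 : ℝ) ≤ w := Nat.cast_nonneg w
          nlinarith
        have hδ0 : 0 < δ n := lt_of_lt_of_le (by positivity) hδL
        have g1 := h3 X (δ n) (1 / 2 + 3 * δ n) n hX hδL hd le_rfl (by linarith)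
        have g2 := h3 X (δ n) (1 + δ n) n hX hδL hd (by linarith) le_rfl
        have g3 : (X : ℝ) ^ (1 - δ n / 4) = X * (EE X n ^ (w + 1))⁻¹ := by
          rw [sub_eq_add_neg, Real.rpow_add hX0, Real.rpow_one]
          congr 1
          rw [Real.rpow_def_of_pos hX0, ← hLdef]
          have e1 : L * -(δ n / 4) = -(((w + 1 : ℕ) : ℝ) * el X n) := by
            simp only [hδ]
            field_simp
            push_cast
            ring
          rw [e1, Real.exp_neg]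
          congr 1
          rw [Real.exp_nat_mul]
          congr 1
          unfold el
          exact Real.exp_log (by linarith [hE2 n])
        rw [g3] at g1 g2
        have g4 := pow_absorb (E := EE X n) hL hn rfl (A := A3 + 1) (B := B3) (K := K) (w := w + 1)
          (by omega)
        calc (∑ d ∈ sqf X, q4 n d) * (c0 * L)
            ≤ (C3 * (1 + |(n : ℝ)|) ^ B3 * (X * (EE X n ^ (w + 1))⁻¹) * L ^ A3 +
              C3 * (1 + |(n : ℝ)|) ^ B3 * (X * (EE X n ^ (w + 1))⁻¹) * L ^ A3) * (c0 * L) := by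
              apply mul_le_mul_of_nonneg_right _ (by positivity)
              simp only [hq4]
              rw [Finset.sum_add_distrib]
              exact add_le_add g1 g2
          _ = 2 * c0 * C3 * X * ((1 + |(n : ℝ)|) ^ B3 * L ^ (A3 + 1) / EE X n ^ (w + 1)) := by
              rw [pow_succ L A3]
              ring
          _ ≤ _ := mul_le_mul_of_nonneg_left g4 (by positivity)
      · simp only [if_neg hd, Finset.sum_const_zero]
        positivity
    calc _ ≤ C1 * X * ((L ^ K)⁻¹ * ((1 + |(n : ℝ)|) ^ 2)⁻¹) +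
          C2 * X * ((L ^ K)⁻¹ * ((1 + |(n : ℝ)|) ^ 2)⁻¹) +
          C2 * X * ((L ^ K)⁻¹ * ((1 + |(n : ℝ)|) ^ 2)⁻¹) +
          2 * c0 * C3 * X * ((L ^ K)⁻¹ * ((1 + |(n : ℝ)|) ^ 2)⁻¹) :=
          add_le_add (add_le_add (add_le_add k1 k2) k3) k4
      _ = _ := by rw [hR1]; ring
  set S := (sqf X).filter (fun d => ∃ n, 1 < q n d) with hS
  have hcard := union_bound (sqf X) q (fun n : ℤ => ((1 + |(n : ℝ)|) ^ 2)⁻¹) (R1 * X * (L ^ K)⁻¹)
    hqn summ_inv_sq (fun n => by positivity) (by positivity) hmean S (Finset.filter_subset _ _)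
    (fun d hd => (Finset.mem_filter.1 hd).2)
  refine ⟨S, Finset.filter_subset _ _, hcard.trans ?_, fun d hd hdS => ?_⟩
  · rw [div_eq_mul_inv]
    have h4 : 0 ≤ X * (L ^ K)⁻¹ := by positivity
    nlinarith
  · have hgood : ∀ n, q n d ≤ 1 := by
      intro n
      by_contra h
      push Not at h
      exact hdS (Finset.mem_filter.2 ⟨hd, n, h⟩)
    refine ⟨fun n => ?_, fun n => ?_, fun n => ?_, fun n δ' hδ' h8 => ?_⟩
    · have h4 : q1 n d / EE X n ^ w ≤ 1 := by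
        have := hgood n
        simp only [hq] at this
        linarith [r1 n d, r2 n d, r3 n d, r4 n d]
      rw [div_le_one (hE0 n)] at h4
      exact h4
    · have h4 : q2 n d / EE X n ^ w ≤ 1 := by
        have := hgood n
        simp only [hq] at this
        linarith [r1 n d, r2 n d, r3 n d, r4 n d]
      rw [div_le_one (hE0 n)] at h4
      exact h4
    · have h4 : q3 n d / EE X n ^ w ≤ 1 := by
        have := hgood n
        simp only [hq] at this
        linarith [r1 n d, r2 n d, r3 n d, r4 n d]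
      rw [div_le_one (hE0 n)] at h4
      exact h4
    · have e : δ' = δ n := hδ'
      rw [e] at h8 ⊢
      have h4 : (if δ n ≤ 1 / 8 then q4 n d * (c0 * L) else 0) ≤ 1 := by
        have := hgood n
        simp only [hq] at this
        linarith [r1 n d, r2 n d, r3 n d, r4 n d]
      rw [if_pos h8] at h4
      exact h4

end Pool.Agent.H466.TW
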