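import Pool.Agent.H466.TW.B3
import Pool.Graph.R_seed8.Y19.QT.ZD2
import Pool.Graph.R_seed8.Y705.QT0

/-!
# Size of the `L`-functions for good discriminants
-/

set_option autoImplicit false

open Complex MeasureTheory Filter Topology Set Finset

namespace Pool.Agent.H466.TW

open Pool.Agent.Y19.QT
open Pool.Agent.Y474.QTZ6 (YY ff)
open Pool.Agent.Y500.QTZ4
open Pool.Agent.Y180.QT12b2 (cx tsum_eq js_le js_mul js_one lj_le Lq_eq Ep Ep_bound Ep_diff
  summable_two)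
open Pool.Agent.H306R2.RZ (js)

variable {Q : ℕ} {lam : ℕ → ℝ}

lemma zeta_norm {σ : ℝ} (hσ : 1 < σ) : ‖LSeries (1 : ℕ → ℂ) (σ : ℂ)‖ ≤ 1 + 1 / (σ - 1) := by
  have hs : LSeriesSummable (1 : ℕ → ℂ) (σ : ℂ) := LSeriesSummable_one_iff.mpr (by simpa using hσ)
  refine le_trans ?_ (Pool.Agent.Y705.QT0.zeta_le hσ)
  unfold LSeries
  refine (norm_tsum_le_tsum_norm hs.norm).trans (le_of_eq (tsum_congr fun n => ?_))
  rw [LSeries.norm_term_eq]
  split_ifs with hn
  · rw [hn, Nat.cast_zero, Real.zero_rpow (by linarith)]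
  · rw [Pi.one_apply, norm_one, Complex.ofReal_re, Real.rpow_neg (Nat.cast_nonneg _), one_div]

lemma Dv_tsum {σ : ℝ} (hσ : 1 < σ) :
    ∑' n, ‖LSeries.term Dv (σ : ℂ) n‖ ≤ (1 + 1 / (σ - 1)) ^ 2 := by
  have hs : LSeriesSummable (1 : ℕ → ℂ) (σ : ℂ) := LSeriesSummable_one_iff.mpr (by simpa using hσ)
  have h1 : LSeries Dv (σ : ℂ) = LSeries (1 : ℕ → ℂ) σ * LSeries (1 : ℕ → ℂ) σ := by
    rw [← LSeries_convolution' hs hs]
    congr 1
    rw [LSeries.convolution_def]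
    funext n
    simp only [Pi.one_apply, mul_one, Finset.sum_const, nsmul_eq_mul, Dv]
    rw [← Nat.map_div_right_divisors, Finset.card_map]
  have h2 : ∀ n, LSeries.term Dv (σ : ℂ) n = ((‖LSeries.term Dv (σ : ℂ) n‖ : ℝ) : ℂ) := by
    intro n
    rw [LSeries.norm_term_eq]
    rcases eq_or_ne n 0 with hn | hn
    · rw [hn]
      simp
    · rw [LSeries.term_of_ne_zero hn, if_neg hn]
      unfold Dv
      rw [Complex.norm_natCast, Complex.ofReal_re, Complex.ofReal_div, Complex.ofReal_natCast,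
        Complex.ofReal_cpow (Nat.cast_nonneg _), Complex.ofReal_natCast]
  have h3 : LSeries Dv (σ : ℂ) = ((∑' n, ‖LSeries.term Dv (σ : ℂ) n‖ : ℝ) : ℂ) := by
    rw [Complex.ofReal_tsum]
    exact tsum_congr h2
  have h4 : ‖LSeries Dv (σ : ℂ)‖ = ∑' n, ‖LSeries.term Dv (σ : ℂ) n‖ := by
    rw [h3, Complex.norm_real, Real.norm_eq_abs, abs_of_nonneg (tsum_nonneg fun n => norm_nonneg _)]
  rw [← h4, h1, norm_mul, sq]
  have h5 := zeta_norm hσ
  exact mul_le_mul h5 h5 (norm_nonneg _) ((norm_nonneg _).trans h5)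

/-- the Dirichlet series of `Lq` -/
theorem Lq_series (T : Twists Q lam) {d : ℤ} (hd : Squarefree d) {s : ℂ} (hs : 1 < s.re) :
    T.Lq d s = LSeries (cx fun n => lam n * js d n) s := by
  have hl : ∀ n : ℕ, |lam n * js d n| ≤ (n.divisors.card : ℝ) := by
    intro n
    rw [abs_mul]
    have h1 := (Pool.Agent.Y180.QT12b1.T12b1 Q lam T.hecke).2.1 n
    calc |lam n| * |js d n| ≤ (n.divisors.card : ℝ) * 1 :=
          mul_le_mul h1 (js_le d n) (abs_nonneg _) (Nat.cast_nonneg _)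
      _ = _ := mul_one _
  have hmj := cx_analytic hl
  have hL : AnalyticOnNhd ℂ (T.Lq d) {s : ℂ | 1 < s.re} := by
    refine (Lq_analytic T hd).mono ?_
    intro s (hs : 1 < s.re)
    show 1 / 4 < s.re
    linarith
  have h3 : T.Lq d =ᶠ[𝓝 (3 : ℂ)] LSeries (cx fun n => lam n * js d n) := by
    have : {s : ℂ | 2 < s.re} ∈ 𝓝 (3 : ℂ) :=
      (isOpen_lt continuous_const Complex.continuous_re).mem_nhds (by norm_num)
    filter_upwards [this] with s hs
    exact Lq_eq T hd (fun s hs => Pool.Agent.Y703.QT8.ell_dir T hd hs) hs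
  have h4 := hL.eqOn_of_preconnected_of_eventuallyEq hmj (half_preconn 1) (z₀ := 3)
    (by show (1 : ℝ) < (3 : ℂ).re; norm_num) h3
  exact h4 hs

/-- the region of absolute convergence -/
theorem Lq_abs (T : Twists Q lam) {d : ℤ} (hd : Squarefree d) {s : ℂ} (hs : 1 < s.re) :
    ‖T.Lq d s‖ ≤ (1 + 1 / (s.re - 1)) ^ 2 ∧ 1 ≤ (1 + 1 / (s.re - 1)) ^ 2 * ‖T.Lq d s‖ := by
  have hl : ∀ n : ℕ, |lam n * js d n| ≤ (n.divisors.card : ℝ) := by
    intro n
    rw [abs_mul]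
    have h1 := (Pool.Agent.Y180.QT12b1.T12b1 Q lam T.hecke).2.1 n
    calc |lam n| * |js d n| ≤ (n.divisors.card : ℝ) * 1 :=
          mul_le_mul h1 (js_le d n) (abs_nonneg _) (Nat.cast_nonneg _)
      _ = _ := mul_one _
  have h1 := (cx_norm hl hs rfl).trans (Dv_tsum hs)
  have h2 := (cx_norm (mj_le T.hecke d) hs rfl).trans (Dv_tsum hs)
  constructor
  · rw [Lq_series T hd hs]
    exact h1
  · have h3 := Lq_mul T hd hs
    have h4 : 1 = ‖T.Lq d s‖ * ‖LSeries (cx (mj Q lam d)) s‖ := by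
      rw [← norm_mul, h3, norm_one]
    calc (1 : ℝ) = ‖T.Lq d s‖ * ‖LSeries (cx (mj Q lam d)) s‖ := h4
      _ ≤ ‖T.Lq d s‖ * (1 + 1 / (s.re - 1)) ^ 2 := mul_le_mul_of_nonneg_left h2 (norm_nonneg _)
      _ = _ := mul_comm _ _

/-- `ell` and `Lq` -/
theorem ell_le (T : Twists Q lam) {d : ℤ} (hd : Squarefree d) {s : ℂ} (hs : 1 / 4 ≤ s.re) :
    ‖T.ell d s‖ ≤ T.c * ‖T.Lq d s‖ ∧ ‖T.Lq d s‖ ≤ T.c * ‖T.ell d s‖ := by
  have sE : LSeriesSummable (fun n => (T.e d n : ℂ)) s :=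
    (Pool.Agent.Y705.QT.hE_bound _ _ (T.e_sum d hd) s hs).1
  have sE' : LSeriesSummable (fun n => (T.e' d n : ℂ)) s :=
    (Pool.Agent.Y705.QT.hE_bound _ _ (T.e'_sum d hd) s hs).1
  have bE : ‖LSeries (fun n => (T.e d n : ℂ)) s‖ ≤ T.c :=
    (Pool.Agent.Y705.QT.hE_bound _ _ (T.e_sum d hd) s hs).2
  have hEE : LSeries (fun n => (T.e d n : ℂ)) s * LSeries (fun n => (T.e' d n : ℂ)) s = 1 := by
    rw [← LSeries_convolution' sE sE']
    have h5 : LSeries (LSeries.convolution (fun n => (T.e d n : ℂ)) (fun n => (T.e' d n : ℂ))) s =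
        LSeries LSeries.delta s := by
      apply LSeries_congr
      intro n hn
      rw [LSeries.convolution_def]
      show ∑ p ∈ n.divisorsAntidiagonal, (T.e d p.1 : ℂ) * (T.e' d p.2 : ℂ) = LSeries.delta n
      have h6 := T.e_inv d hd n (Nat.one_le_iff_ne_zero.mpr hn)
      have h7 : ((∑ x ∈ n.divisorsAntidiagonal, T.e d x.1 * T.e' d x.2 : ℝ) : ℂ) =
          ((if n = 1 then 1 else 0 : ℝ) : ℂ) := by rw [h6]
      rw [ofReal_sum] at h7
      simp only [ofReal_mul] at h7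
      rw [h7, LSeries.delta]
      split_ifs <;> simp
    rw [h5, LSeries_delta]
    rfl
  have h1 : Ep T d s = LSeries (fun n => (T.e' d n : ℂ)) s := by
    unfold Ep
    rw [Pool.Agent.Y705.QT.tsum_eq_ls (fun n => (T.e' d n : ℂ)) (by simp [(T.e_zero d hd).2]) s]
  have e : T.Lq d s = T.ell d s * Ep T d s := rfl
  constructor
  · have e2 : T.ell d s = T.Lq d s * LSeries (fun n => (T.e d n : ℂ)) s := by
      rw [e, h1, mul_assoc, mul_comm (LSeries (fun n => (T.e' d n : ℂ)) s), hEE, mul_one]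
    rw [e2, norm_mul, mul_comm]
    exact mul_le_mul_of_nonneg_right bE (norm_nonneg _)
  · rw [e, norm_mul, mul_comm]
    exact mul_le_mul_of_nonneg_right (Ep_bound T hd hs) (norm_nonneg _)

end Pool.Agent.H466.TW
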