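import Pool.Agent.H466.TW.B4

/-!
# The size law for good discriminants
-/

set_option autoImplicit false

open Complex MeasureTheory Filter Topology Set Finset

namespace Pool.Agent.H466.TW

open Pool.Agent.Y19.QT
open Pool.Agent.Y474.QTZ6 (YY ff)
open Pool.Agent.H306R2.RZ (js)

variable {Q : ℕ} {lam : ℕ → ℝ}

lemma el_ge' {X : ℕ} (hX : 3 ≤ X) (t : ℝ) : Real.log 2 ≤ el X t :=
  Real.log_le_log (by norm_num) (EE_ge hX t)

lemma EE_round {X : ℕ} (hX : 3 ≤ X) (t : ℝ) : EE X (round t) ≤ 2 * EE X t := by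
  have hL := Pool.Agent.Y703.QT12.log_ge_one hX
  have h1 := abs_sub_round t
  have h2 : |((round t : ℤ) : ℝ)| ≤ |t| + 1 / 2 := by
    have h3 := abs_sub_abs_le_abs_sub ((round t : ℤ) : ℝ) t
    rw [abs_sub_comm] at h3
    linarith
  unfold EE
  have h3 := abs_nonneg t
  nlinarith

lemma el_round {X : ℕ} (hX : 3 ≤ X) (t : ℝ) : el X (round t) ≤ 2 * el X t := by
  have h1 := EE_round hX t
  have h2 := EE_ge hX t
  have h3 := EE_ge hX ((round t : ℤ) : ℝ)
  have h4 : el X (round t) ≤ Real.log (2 * EE X t) := Real.log_le_log (by linarith) h1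
  rw [Real.log_mul (by norm_num) (by linarith)] at h4
  have h5 := el_ge' hX t
  unfold el at *
  linarith

lemma exp_el {X : ℕ} (hX : 3 ≤ X) (t : ℝ) : Real.exp (el X t) = EE X t := by
  unfold el
  exact Real.exp_log (by linarith [EE_ge hX t])

lemma L_le_EE {X : ℕ} (hX : 3 ≤ X) (t : ℝ) : Real.log X ≤ EE X t := by
  have hL := Pool.Agent.Y703.QT12.log_ge_one hX
  unfold EE
  nlinarith [abs_nonneg t]

lemma JJ_le_const {g : ℝ → ℝ} (hg : ∀ y, 0 ≤ g y) {M : ℝ} (hM : ∀ y, g y ≤ M) (n : ℝ) :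
    JJ g n ≤ 2 * M := by
  have hM0 : 0 ≤ M := (hg 0).trans (hM 0)
  unfold JJ
  calc ∫ y : ℝ, g y * Real.exp (-(2 * |y - n|)) ≤ ∫ y : ℝ, M * Real.exp (-|y - n|) := by
        refine integral_mono_of_nonneg (Eventually.of_forall fun y =>
          mul_nonneg (hg y) (Real.exp_pos _).le) ((integrable_shift n).const_mul M)
          (Eventually.of_forall fun y => ?_)
        refine mul_le_mul (hM y) ?_ (Real.exp_pos _).le hM0
        apply Real.exp_le_exp.mpr
        linarith [abs_nonneg (y - n)]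
    _ = 2 * M := by rw [integral_const_mul, int_shift]; ring

/-- a bound `M E^(w+1)` in exponential form -/
lemma to_exp {X : ℕ} (hX : 3 ≤ X) {t M C : ℝ} {w : ℕ} (hM : 1 ≤ M) (hC : Real.log M + (w + 1) ≤ C) :
    M * EE X t ^ (w + 1) ≤ Real.exp (2 * C * el X t) := by
  have h1 := el_ge hX t
  have hlM : 0 ≤ Real.log M := Real.log_nonneg hM
  have e : M * EE X t ^ (w + 1) = Real.exp (Real.log M + (w + 1) * el X t) := by
    rw [Real.exp_add, Real.exp_log (by linarith), ← exp_el hX t, ← Real.exp_nat_mul]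
    push_cast
    ring
  rw [e]
  apply Real.exp_le_exp.mpr
  have hw : (0 : ℝ) ≤ w + 1 := by positivity
  nlinarith

theorem size_upper (T : Twists Q lam) (w : ℕ) : ∃ C : ℝ, 1 ≤ C ∧ ∀ (X : ℕ) (d : ℤ), 3 ≤ X →
    Squarefree d → Good T w X d → ∀ s : ℂ, 1 / 2 + 1 / Real.log X ≤ s.re →
      ‖T.Lq d s‖ ≤ Real.exp (C * el X s.im) := by
  have hc1 := T.one_le_c
  set M : ℝ := Real.exp 14 * (2 ^ w + 64 * T.c ^ 2) with hM
  have hM1 : 1 ≤ M := by
    rw [hM]
    have h1 : (1 : ℝ) ≤ Real.exp 14 := Real.one_le_exp (by norm_num)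
    have h2 : (1 : ℝ) ≤ 2 ^ w := one_le_pow₀ (by norm_num)
    have h3 : (0 : ℝ) ≤ 64 * T.c ^ 2 := by positivity
    nlinarith
  have hlM := Real.log_nonneg hM1
  have hlc := Real.log_nonneg hc1
  refine ⟨Real.log M + (w + 1) + 18 + 2 * Real.log T.c, by
    have : (0 : ℝ) ≤ w := Nat.cast_nonneg w
    linarith, fun X d hX hd hG s hs => ?_⟩
  have hL := Pool.Agent.Y703.QT12.log_ge_one hX
  set L := Real.log X with hLdef
  have hL0 : 0 < L := by linarith
  have hE := EE_ge hX s.im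
  have hel := el_ge hX s.im
  have hw0 : (0 : ℝ) ≤ w := Nat.cast_nonneg w
  have hL1 : 0 < 1 / L := by positivity
  rcases le_or_gt s.re (3 / 2) with h32 | h32
  · obtain ⟨K, hK0, hK⟩ := ell_sq_growth T hd
    have hn := abs_sub_round s.im
    have hdiff := (Pool.Agent.Y703.QT8.T8a T d hd).1
    have h1 := two_line (f := fun s => T.ell d s ^ 2) (U := Set.univ) (a := 1 / 2) (b := 2) (K := K)
      isOpen_univ (hdiff.pow 2).differentiableOn (fun _ _ _ => Set.mem_univ _)
      (fun z h1 h2 => hK z (by linarith) (by linarith)) (by norm_num) (s := s) (by linarith)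
      (by linarith) (n := (round s.im : ℤ)) (by linarith)
    have h2 := hG.ell (round s.im)
    have h3 : JJ (fun y : ℝ => ‖T.ell d (((2 : ℝ) : ℂ) + y * I) ^ 2‖) (round s.im : ℤ) ≤
        2 * (16 * T.c ^ 2) := by
      refine JJ_le_const (fun y => norm_nonneg _) (fun y => ?_) _
      rw [norm_pow]
      have h4 := (ell_le T hd (s := ((2 : ℝ) : ℂ) + y * I) (by simp; norm_num)).1
      have h5 := (Lq_abs T hd (s := ((2 : ℝ) : ℂ) + y * I) (by simp)).1
      have e : (((2 : ℝ) : ℂ) + y * I).re = 2 := by simp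
      rw [e] at h5
      norm_num at h5
      calc ‖T.ell d (((2 : ℝ) : ℂ) + y * I)‖ ^ 2 ≤ (T.c * 4) ^ 2 := by
            refine pow_le_pow_left₀ (norm_nonneg _) (h4.trans ?_) 2
            push_cast
            exact mul_le_mul_of_nonneg_left h5 (by linarith)
        _ = _ := by ring
    have hEr := EE_round hX s.im
    have hE0 := EE_ge hX ((round s.im : ℤ) : ℝ)
    have h4 : EE X (round s.im : ℤ) ^ w ≤ 2 ^ w * EE X s.im ^ w := by
      rw [← mul_pow]
      exact pow_le_pow_left₀ (by linarith) hEr w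
    have h5 : 1 / (s.re - 1 / 2) ≤ L := by
      rw [div_le_iff₀ (by linarith)]
      have : L * (1 / L) ≤ L * (s.re - 1 / 2) := mul_le_mul_of_nonneg_left (by linarith) hL0.le
      rw [mul_one_div_cancel hL0.ne'] at this
      linarith
    have h6 : 1 / (2 - s.re) ≤ 2 := by
      rw [div_le_iff₀ (by linarith)]
      linarith
    have hLE := L_le_EE hX s.im
    have hEw : 1 ≤ EE X s.im ^ (w + 1) := one_le_pow₀ (by linarith)
    have h7 : ‖T.ell d s‖ ^ 2 ≤ M * EE X s.im ^ (w + 1) := by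
      have h8 : ‖T.ell d s‖ ^ 2 = ‖T.ell d s ^ 2‖ := (norm_pow _ _).symm
      rw [h8]
      refine h1.trans ?_
      have j1 := JJ_nonneg (g := fun y => ‖T.ell d (((1 / 2 : ℝ) : ℂ) + y * I) ^ 2‖)
        (fun y => norm_nonneg _) ((round s.im : ℤ) : ℝ)
      have j2 := JJ_nonneg (g := fun y => ‖T.ell d (((2 : ℝ) : ℂ) + y * I) ^ 2‖)
        (fun y => norm_nonneg _) ((round s.im : ℤ) : ℝ)
      have i1 : 1 / (s.re - 1 / 2) * JJ (fun y => ‖T.ell d (((1 / 2 : ℝ) : ℂ) + y * I) ^ 2‖)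
          ((round s.im : ℤ) : ℝ) ≤ EE X s.im * (2 ^ w * EE X s.im ^ w) :=
        mul_le_mul (h5.trans hLE) (h2.trans h4) j1 (by linarith)
      have i2 : 1 / (2 - s.re) * JJ (fun y => ‖T.ell d (((2 : ℝ) : ℂ) + y * I) ^ 2‖)
          ((round s.im : ℤ) : ℝ) ≤ 2 * (2 * (16 * T.c ^ 2)) :=
        mul_le_mul h6 h3 j2 (by norm_num)
      calc Real.exp 14 * (1 / (s.re - 1 / 2) * JJ (fun y => ‖T.ell d (((1 / 2 : ℝ) : ℂ) + y * I) ^ 2‖)
            ((round s.im : ℤ) : ℝ) + 1 / (2 - s.re) *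
            JJ (fun y => ‖T.ell d (((2 : ℝ) : ℂ) + y * I) ^ 2‖) ((round s.im : ℤ) : ℝ))
          ≤ Real.exp 14 * (EE X s.im * (2 ^ w * EE X s.im ^ w) + 2 * (2 * (16 * T.c ^ 2))) := by
            apply mul_le_mul_of_nonneg_left (add_le_add i1 i2) (Real.exp_pos _).le
        _ = Real.exp 14 * (2 ^ w * EE X s.im ^ (w + 1) + 64 * T.c ^ 2 * 1) := by
            rw [pow_succ]
            ring
        _ ≤ Real.exp 14 * (2 ^ w * EE X s.im ^ (w + 1) + 64 * T.c ^ 2 * EE X s.im ^ (w + 1)) := by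
            gcongr
        _ = _ := by rw [hM]; ring
    have h8 := h7.trans (to_exp hX (t := s.im) (w := w) hM1 le_rfl)
    have h9 : ‖T.ell d s‖ ≤ Real.exp ((Real.log M + (w + 1)) * el X s.im) := by
      have e : Real.exp (2 * (Real.log M + (w + 1)) * el X s.im) =
          Real.exp ((Real.log M + (w + 1)) * el X s.im) ^ 2 := by
        rw [← Real.exp_nat_mul]
        congr 1
        push_cast
        ring
      rw [e] at h8
      exact (pow_le_pow_iff_left₀ (norm_nonneg _) (Real.exp_pos _).le two_ne_zero).mp h8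
    have h10 := (ell_le T hd (s := s) (by linarith)).2
    calc ‖T.Lq d s‖ ≤ T.c * ‖T.ell d s‖ := h10
      _ ≤ T.c * Real.exp ((Real.log M + (w + 1)) * el X s.im) :=
          mul_le_mul_of_nonneg_left h9 (by linarith)
      _ = Real.exp (Real.log T.c + (Real.log M + (w + 1)) * el X s.im) := by
          rw [Real.exp_add, Real.exp_log (by linarith)]
      _ ≤ _ := by
          apply Real.exp_le_exp.mpr
          nlinarith
  · have h1 := (Lq_abs T hd (s := s) (by linarith)).1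
    have h2 : 1 / (s.re - 1) ≤ 2 := by
      rw [div_le_iff₀ (by linarith)]
      linarith
    have h3 : 0 ≤ 1 / (s.re - 1) := by
      apply one_div_nonneg.mpr; linarith
    calc ‖T.Lq d s‖ ≤ (1 + 1 / (s.re - 1)) ^ 2 := h1
      _ ≤ 3 ^ 2 := pow_le_pow_left₀ (by linarith) (by linarith) 2
      _ ≤ Real.exp 9 := by
          have := Real.add_one_le_exp (9 : ℝ)
          linarith
      _ ≤ _ := by
          apply Real.exp_le_exp.mpr
          nlinarith

theorem size_mol (T : Twists Q lam) (w : ℕ) : ∃ C : ℝ, 1 ≤ C ∧ ∀ (X : ℕ) (d : ℤ), 3 ≤ X →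
    Good T w X d → ∀ s : ℂ, 1 / 2 + 1 / Real.log X ≤ s.re → s.re ≤ 3 / 2 →
      ‖Mol Q lam (YY X) d s‖ ≤ Real.exp (C * el X s.im) := by
  set M : ℝ := Real.exp 14 * (3 * 2 ^ w) with hM
  have hM1 : 1 ≤ M := by
    rw [hM]
    have h1 : (1 : ℝ) ≤ Real.exp 14 := Real.one_le_exp (by norm_num)
    have h2 : (1 : ℝ) ≤ 2 ^ w := one_le_pow₀ (by norm_num)
    nlinarith
  have hlM := Real.log_nonneg hM1
  refine ⟨Real.log M + (w + 1), by
    have : (0 : ℝ) ≤ w := Nat.cast_nonneg w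
    linarith, fun X d hX hG s hs h32 => ?_⟩
  have hL := Pool.Agent.Y703.QT12.log_ge_one hX
  set L := Real.log X with hLdef
  have hL0 : 0 < L := by linarith
  have hE := EE_ge hX s.im
  have hel := el_ge hX s.im
  have hw0 : (0 : ℝ) ≤ w := Nat.cast_nonneg w
  have hL1 : 0 < 1 / L := by positivity
  have hn := abs_sub_round s.im
  have hdiff := Pool.Agent.Y180.QT12b2.Mol_diff Q lam (YY X) d
  have h1 := two_line (f := fun s => Mol Q lam (YY X) d s ^ 2) (U := Set.univ) (a := 1 / 2) (b := 2)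
    (K := (∑ h ∈ Finset.Icc 1 (YY X), |muE Q lam h|) ^ 2)
    isOpen_univ (hdiff.pow 2).differentiableOn (fun _ _ _ => Set.mem_univ _)
    (fun z h1 h2 => by
      rw [norm_pow]
      have h3 := Pool.Agent.Y180.QT12b2.Mol_bound Q lam (YY X) d (s := z) (by linarith)
      calc ‖Mol Q lam (YY X) d z‖ ^ 2 ≤ (∑ h ∈ Finset.Icc 1 (YY X), |muE Q lam h|) ^ 2 :=
            pow_le_pow_left₀ (norm_nonneg _) h3 2
        _ ≤ _ := le_mul_of_one_le_right (by positivity) (Real.one_le_exp (abs_nonneg _)))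
    (by norm_num) (s := s) (by linarith) (by linarith) (n := (round s.im : ℤ)) (by linarith)
  have h2 := hG.mol1 (round s.im)
  have h3 := hG.mol2 (round s.im)
  have hEr := EE_round hX s.im
  have hE0 := EE_ge hX ((round s.im : ℤ) : ℝ)
  have h4 : EE X (round s.im : ℤ) ^ w ≤ 2 ^ w * EE X s.im ^ w := by
    rw [← mul_pow]
    exact pow_le_pow_left₀ (by linarith) hEr w
  have h5 : 1 / (s.re - 1 / 2) ≤ L := by
    rw [div_le_iff₀ (by linarith)]
    have : L * (1 / L) ≤ L * (s.re - 1 / 2) := mul_le_mul_of_nonneg_left (by linarith) hL0.le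
    rw [mul_one_div_cancel hL0.ne'] at this
    linarith
  have h6 : 1 / (2 - s.re) ≤ 2 := by
    rw [div_le_iff₀ (by linarith)]
    linarith
  have hLE := L_le_EE hX s.im
  have h7 : ‖Mol Q lam (YY X) d s‖ ^ 2 ≤ M * EE X s.im ^ (w + 1) := by
    have h8 : ‖Mol Q lam (YY X) d s‖ ^ 2 = ‖Mol Q lam (YY X) d s ^ 2‖ := (norm_pow _ _).symm
    rw [h8]
    refine h1.trans ?_
    have j1 := JJ_nonneg (g := fun y => ‖Mol Q lam (YY X) d (((1 / 2 : ℝ) : ℂ) + y * I) ^ 2‖)
      (fun y => norm_nonneg _) ((round s.im : ℤ) : ℝ)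
    have j2 := JJ_nonneg (g := fun y => ‖Mol Q lam (YY X) d (((2 : ℝ) : ℂ) + y * I) ^ 2‖)
      (fun y => norm_nonneg _) ((round s.im : ℤ) : ℝ)
    have i1 : 1 / (s.re - 1 / 2) * JJ (fun y => ‖Mol Q lam (YY X) d (((1 / 2 : ℝ) : ℂ) + y * I) ^ 2‖)
        ((round s.im : ℤ) : ℝ) ≤ EE X s.im * (2 ^ w * EE X s.im ^ w) :=
      mul_le_mul (h5.trans hLE) (h2.trans h4) j1 (by linarith)
    have i2 : 1 / (2 - s.re) * JJ (fun y => ‖Mol Q lam (YY X) d (((2 : ℝ) : ℂ) + y * I) ^ 2‖)
        ((round s.im : ℤ) : ℝ) ≤ EE X s.im * (2 ^ w * EE X s.im ^ w) :=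
      mul_le_mul (h6.trans hE) (h3.trans h4) j2 (by linarith)
    have h9 : 0 ≤ EE X s.im * (2 ^ w * EE X s.im ^ w) := by
      have : 0 ≤ EE X s.im := by linarith
      positivity
    calc Real.exp 14 * (1 / (s.re - 1 / 2) *
          JJ (fun y => ‖Mol Q lam (YY X) d (((1 / 2 : ℝ) : ℂ) + y * I) ^ 2‖)
          ((round s.im : ℤ) : ℝ) + 1 / (2 - s.re) *
          JJ (fun y => ‖Mol Q lam (YY X) d (((2 : ℝ) : ℂ) + y * I) ^ 2‖) ((round s.im : ℤ) : ℝ))
        ≤ Real.exp 14 * (EE X s.im * (2 ^ w * EE X s.im ^ w) + EE X s.im * (2 ^ w * EE X s.im ^ w)) := by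
          apply mul_le_mul_of_nonneg_left (add_le_add i1 i2) (Real.exp_pos _).le
      _ ≤ Real.exp 14 * (3 * (EE X s.im * (2 ^ w * EE X s.im ^ w))) := by
          apply mul_le_mul_of_nonneg_left _ (Real.exp_pos _).le
          linarith
      _ = _ := by rw [hM, pow_succ]; ring
  have h8 := h7.trans (to_exp hX (t := s.im) (w := w) hM1 le_rfl)
  have e : Real.exp (2 * (Real.log M + (w + 1)) * el X s.im) =
      Real.exp ((Real.log M + (w + 1)) * el X s.im) ^ 2 := by
    rw [← Real.exp_nat_mul]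
    congr 1
    push_cast
    ring
  rw [e] at h8
  exact (pow_le_pow_iff_left₀ (norm_nonneg _) (Real.exp_pos _).le two_ne_zero).mp h8

/-- `ff` is small -/
theorem ff_small (T : Twists Q lam) {w X : ℕ} {d : ℤ} (hX : 3 ≤ X) (hd : Squarefree d)
    (hG : Good T w X d) {δ : ℝ} {s : ℂ} (hδ : δ = 4 * (w + 1) * el X (round s.im) / Real.log X)
    (h8 : δ ≤ 1 / 8) (h1 : 1 / 2 + 4 * δ ≤ s.re) (h2 : s.re ≤ 1 + δ / 2) :
    ‖ff T (YY X) d s‖ ≤ 1 / 2 := by
  have hL := Pool.Agent.Y703.QT12.log_ge_one hX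
  have hff := hG.ff (round s.im) δ hδ h8
  set L := Real.log X with hLdef
  have hL0 : 0 < L := by linarith
  have hel := el_ge hX ((round s.im : ℤ) : ℝ)
  have hw0 : (0 : ℝ) ≤ w := Nat.cast_nonneg w
  have hδL : 1 / L ≤ δ := by
    rw [hδ]
    apply div_le_div_of_nonneg_right _ hL0.le
    nlinarith
  have hδ0 : 0 < δ := lt_of_lt_of_le (by positivity) hδL
  have hδi : 1 / δ ≤ L := by
    rw [div_le_iff₀ hδ0]
    rw [div_le_iff₀ hL0] at hδL
    linarith
  obtain ⟨K, hK0, hK⟩ := ff_growth T X hd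
  have hn := abs_sub_round s.im
  have hopen : IsOpen {s : ℂ | 1 / 4 < s.re} := isOpen_lt continuous_const continuous_re
  have h3 := two_line (f := ff T (YY X) d) (U := {s : ℂ | 1 / 4 < s.re}) (a := 1 / 2 + 3 * δ)
    (b := 1 + δ) (K := K) hopen (Pool.Agent.Y474.QTZ6.ff_diff T (YY X) hd)
    (fun z h1 _ => by show 1 / 4 < z.re; linarith)
    (fun z h1 h2 => hK z (by linarith) (by linarith)) (by linarith) (s := s) (by linarith)
    (by linarith) (n := (round s.im : ℤ)) (by linarith)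
  set J1 := JJ (fun y : ℝ => ‖ff T (YY X) d (((1 / 2 + 3 * δ : ℝ) : ℂ) + y * I)‖) (round s.im : ℤ)
  set J2 := JJ (fun y : ℝ => ‖ff T (YY X) d (((1 + δ : ℝ) : ℂ) + y * I)‖) (round s.im : ℤ)
  have j1 : 0 ≤ J1 := JJ_nonneg (fun y => norm_nonneg _) _
  have j2 : 0 ≤ J2 := JJ_nonneg (fun y => norm_nonneg _) _
  have i1 : 1 / (s.re - (1 / 2 + 3 * δ)) ≤ 2 * L := by
    have h4 : 1 / (s.re - (1 / 2 + 3 * δ)) ≤ 1 / δ :=
      one_div_le_one_div_of_le hδ0 (by linarith)
    linarith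
  have i2 : 1 / (1 + δ - s.re) ≤ 2 * L := by
    have h4 : 1 / (1 + δ - s.re) ≤ 1 / (δ / 2) :=
      one_div_le_one_div_of_le (by linarith) (by linarith)
    have h5 : 1 / (δ / 2) = 2 * (1 / δ) := by field_simp
    linarith
  have h4 : Real.exp 14 * (2 * L * (J1 + J2)) ≤ 1 / 2 := by
    have h5 : (J1 + J2) * (4 * Real.exp 14 * L) ≤ 1 := hff
    linarith
  refine h3.trans (le_trans ?_ h4)
  apply mul_le_mul_of_nonneg_left _ (Real.exp_pos _).le
  have k1 := mul_le_mul_of_nonneg_right i1 j1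
  have k2 := mul_le_mul_of_nonneg_right i2 j2
  linarith

theorem size_lower (T : Twists Q lam) (w : ℕ) : ∃ C : ℝ, 1 ≤ C ∧ ∀ (X : ℕ) (d : ℤ), 3 ≤ X →
    Squarefree d → Good T w X d → ∀ s : ℂ, 1 / 2 + C * el X s.im / Real.log X ≤ s.re →
      Real.exp (-(C * el X s.im)) ≤ ‖T.Lq d s‖ := by
  obtain ⟨C1, hC1, hmol⟩ := size_mol T w
  have hw0 : (0 : ℝ) ≤ w := Nat.cast_nonneg w
  refine ⟨64 * (w + 1) + C1, by linarith, fun X d hX hd hG s hs => ?_⟩
  have hL := Pool.Agent.Y703.QT12.log_ge_one hX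
  set L := Real.log X with hLdef
  have hL0 : 0 < L := by linarith
  have hel := el_ge hX s.im
  have helr := el_ge hX ((round s.im : ℤ) : ℝ)
  have hround := el_round hX s.im
  have hL1 : 0 < 1 / L := by positivity
  set u : ℝ := el X s.im / L with hu
  have hu0 : 0 < u := by positivity
  have hu1 : 1 / L ≤ 2 * u := by
    rw [hu, ← mul_div_assoc]
    apply div_le_div_of_nonneg_right _ hL0.le
    linarith
  have hs' : 1 / 2 + 64 * (w + 1) * u ≤ s.re := by
    have e : (64 * (w + 1) + C1) * el X s.im / L = 64 * (w + 1) * u + C1 * u := by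
      rw [hu]; ring
    rw [e] at hs
    have : 0 ≤ C1 * u := by positivity
    linarith
  -- the region of absolute convergence
  have habs : 1 + 1 / L ≤ s.re → Real.exp (-((64 * (w + 1) + C1) * el X s.im)) ≤ ‖T.Lq d s‖ := by
    intro h1
    have h2 := (Lq_abs T hd (s := s) (by linarith)).2
    have h3 : 1 / (s.re - 1) ≤ L := by
      rw [div_le_iff₀ (by linarith)]
      have : L * (1 / L) ≤ L * (s.re - 1) := mul_le_mul_of_nonneg_left (by linarith) hL0.le
      rw [mul_one_div_cancel hL0.ne'] at this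
      linarith
    have h4 : 0 ≤ 1 / (s.re - 1) := by
      apply one_div_nonneg.mpr; linarith
    have h5 : (1 + 1 / (s.re - 1)) ^ 2 ≤ Real.exp ((64 * (w + 1) + C1) * el X s.im) := by
      calc (1 + 1 / (s.re - 1)) ^ 2 ≤ (2 * L) ^ 2 := pow_le_pow_left₀ (by linarith) (by linarith) 2
        _ ≤ (Real.exp 1 * EE X s.im) ^ 2 := by
            have h6 := L_le_EE hX s.im
            have h7 : 2 ≤ Real.exp 1 := by
              have := Real.add_one_le_exp (1 : ℝ)
              linarith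
            apply pow_le_pow_left₀ (by positivity)
            exact mul_le_mul h7 h6 hL0.le (by positivity)
        _ = Real.exp (2 * (1 + el X s.im)) := by
            rw [← exp_el hX s.im, ← Real.exp_add, ← Real.exp_nat_mul]
            congr 1
        _ ≤ _ := by
            apply Real.exp_le_exp.mpr
            nlinarith
    rw [Real.exp_neg, inv_eq_one_div, div_le_iff₀ (Real.exp_pos _)]
    calc (1 : ℝ) ≤ (1 + 1 / (s.re - 1)) ^ 2 * ‖T.Lq d s‖ := h2
      _ ≤ Real.exp ((64 * (w + 1) + C1) * el X s.im) * ‖T.Lq d s‖ :=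
          mul_le_mul_of_nonneg_right h5 (norm_nonneg _)
      _ = _ := mul_comm _ _
  set δ : ℝ := 4 * (w + 1) * el X (round s.im) / L with hδ
  have hδu : δ ≤ 8 * (w + 1) * u := by
    rw [hδ, hu, ← mul_div_assoc]
    apply div_le_div_of_nonneg_right _ hL0.le
    nlinarith
  have hδL : 2 / L ≤ δ := by
    rw [hδ]
    apply div_le_div_of_nonneg_right _ hL0.le
    nlinarith
  have h2L : 2 / L = 2 * (1 / L) := by ring
  rcases le_or_gt δ (1 / 8) with h8 | h8
  · rcases le_or_gt s.re (1 + δ / 2) with h1 | h1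
    · have hff := ff_small T hX hd hG hδ h8 (by nlinarith) h1
      have h2 : 1 / 2 ≤ ‖T.Lq d s‖ * ‖Mol Q lam (YY X) d s‖ := by
        rw [← norm_mul]
        unfold ff at hff
        have h3 : ‖(1 : ℂ)‖ - ‖T.Lq d s * Mol Q lam (YY X) d s‖ ≤
            ‖1 - T.Lq d s * Mol Q lam (YY X) d s‖ := norm_sub_norm_le _ _
        rw [norm_sub_rev, norm_one] at h3
        linarith
      have h3 := hmol X d hX hG s (by nlinarith) (by linarith)
      have h4 : 1 / 2 ≤ ‖T.Lq d s‖ * Real.exp (C1 * el X s.im) :=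
        h2.trans (mul_le_mul_of_nonneg_left h3 (norm_nonneg _))
      rw [Real.exp_neg, inv_eq_one_div, div_le_iff₀ (Real.exp_pos _)]
      have h5 : Real.exp ((64 * (w + 1) + C1) * el X s.im) ≥ 2 * Real.exp (C1 * el X s.im) := by
        have h6 : 2 ≤ Real.exp (64 * (w + 1) * el X s.im) := by
          have := Real.add_one_le_exp (64 * (w + 1) * el X s.im)
          nlinarith
        have e : Real.exp ((64 * (w + 1) + C1) * el X s.im) =
            Real.exp (64 * (w + 1) * el X s.im) * Real.exp (C1 * el X s.im) := by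
          rw [← Real.exp_add]
          congr 1
          ring
        rw [e]
        exact mul_le_mul_of_nonneg_right h6 (Real.exp_pos _).le
      nlinarith [mul_le_mul_of_nonneg_left h5 (norm_nonneg (T.Lq d s))]
    · exact habs (by linarith)
  · apply habs
    nlinarith

end Pool.Agent.H466.TW
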