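import Pool.Agent.H466.TW.B5
import Pool.Agent.H466.TH.A9
import Pool.Graph.R_seed8.Y203.QTZ5

/-!
# Newforms of the twists: relation with the functions `Lq`
-/

set_option autoImplicit false

open Complex MeasureTheory Filter Topology Set MatrixGroups CongruenceSubgroup
open UpperHalfPlane hiding I
open scoped ComplexConjugate

namespace Pool.Agent.H466.TW

open Pool.Agent.Y19.QT
open Pool.Agent.H306R2.RZ (js)
open Pool.Agent.H466.HF
open Pool.Agent.Y705.QT (lf hL hL_euler js_prime)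
open Pool.Agent.Y500.QTZ4 (Lq_analytic half_preconn)

variable {Q : ℕ} {lam : ℕ → ℝ}

/-- the newform `f` belongs to the `d`-th member of the family -/
structure Rel (Q : ℕ) (lam : ℕ → ℝ) (d : ℤ) (N : ℕ)
    (f : CuspForm (Gamma0 N : Subgroup (GL (Fin 2) ℝ)) 2) (w : ℝ) : Prop where
  newf : W388.IsNewf N 2 f w
  good : ∀ p : ℕ, p.Prime → ¬ p ∣ N → |W388.lamf f p| ≤ 2
  bad : ∀ p : ℕ, p.Prime → p ∣ N → |W388.lamf f p| ≤ 1
  unr : ∀ p : ℕ, p.Prime → ¬ p ∣ Q → ¬ (p : ℤ) ∣ d → ¬ p ∣ N ∧ W388.lamf f p = js d p * lam p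
  ram : ∀ p : ℕ, p.Prime → ¬ p ∣ Q → (p : ℤ) ∣ d → p ∣ N ∧ W388.lamf f p = 0

variable {d : ℤ} {N : ℕ} {f : CuspForm (Gamma0 N : Subgroup (GL (Fin 2) ℝ)) 2} {w : ℝ}

/-- the inverse of the local factor -/
noncomputable def fac (f : CuspForm (Gamma0 N : Subgroup (GL (Fin 2) ℝ)) 2) (p : ℕ) (s : ℂ) : ℂ :=
  1 - (W388.lamf f p : ℂ) * (p : ℂ) ^ (-s) + (if p ∣ N then 0 else (p : ℂ) ^ (-2 * s))

/-- the factors at the primes dividing `Q` -/
noncomputable def Pf (Q : ℕ) (f : CuspForm (Gamma0 N : Subgroup (GL (Fin 2) ℝ)) 2) (s : ℂ) : ℂ :=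
  ∏ p ∈ Q.primeFactors, (fac f p s)⁻¹

lemma fac_prod (R : Rel Q lam d N f w) {p : ℕ} (hp : p.Prime) (s : ℂ) :
    fac f p s = ∏ j, (1 - al f j p * (p : ℂ) ^ (-s)) := by
  have h := al_factor (f := f) R.good hp s
  rw [Finset.prod_inv_distrib, inv_inj] at h
  unfold fac
  exact h.symm

lemma pow_lt {p : ℕ} (hp : p.Prime) {s : ℂ} (hs : 1 / 4 ≤ s.re) :
    ‖(p : ℂ) ^ (-s)‖ ≤ 841 / 1000 := by
  rw [Complex.norm_natCast_cpow_of_pos hp.pos, neg_re]
  have hp2 : (2 : ℝ) ≤ p := by exact_mod_cast hp.two_le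
  calc (p : ℝ) ^ (-s.re) ≤ (p : ℝ) ^ (-(1 / 4) : ℝ) :=
        Real.rpow_le_rpow_of_exponent_le (by linarith) (by linarith)
    _ ≤ (2 : ℝ) ^ (-(1 / 4) : ℝ) := Real.rpow_le_rpow_of_nonpos (by norm_num) hp2 (by norm_num)
    _ ≤ 841 / 1000 := by
        rw [Real.rpow_neg (by norm_num), inv_le_comm₀ (by positivity) (by norm_num)]
        have h : ((841 / 1000 : ℝ)⁻¹) ^ 4 ≤ ((2 : ℝ) ^ (1 / 4 : ℝ)) ^ 4 := by
          rw [← Real.rpow_natCast ((2 : ℝ) ^ (1 / 4 : ℝ)), ← Real.rpow_mul (by norm_num)]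
          norm_num
        exact (pow_le_pow_iff_left₀ (by norm_num) (by positivity) (by norm_num)).mp h

lemma fac_bounds (R : Rel Q lam d N f w) {p : ℕ} (hp : p.Prime) {s : ℂ} (hs : 1 / 4 ≤ s.re) :
    1 / 40 ≤ ‖fac f p s‖ ∧ ‖fac f p s‖ ≤ 40 := by
  rw [fac_prod R hp, norm_prod, Fin.prod_univ_two]
  have hx := pow_lt hp hs
  have h : ∀ j, 159 / 1000 ≤ ‖1 - al f j p * (p : ℂ) ^ (-s)‖ ∧
      ‖1 - al f j p * (p : ℂ) ^ (-s)‖ ≤ 2 := by
    intro j
    have h1 := al_norm (f := f) R.good R.bad j hp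
    have h2 : ‖al f j p * (p : ℂ) ^ (-s)‖ ≤ 841 / 1000 := by
      rw [norm_mul]
      calc ‖al f j p‖ * ‖(p : ℂ) ^ (-s)‖ ≤ 1 * (841 / 1000) :=
            mul_le_mul h1 hx (norm_nonneg _) zero_le_one
        _ = _ := one_mul _
    constructor
    · have h3 := norm_sub_norm_le (1 : ℂ) (al f j p * (p : ℂ) ^ (-s))
      rw [norm_one] at h3
      linarith
    · have h3 := norm_sub_le (1 : ℂ) (al f j p * (p : ℂ) ^ (-s))
      rw [norm_one] at h3
      linarith
  have h0 := h 0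
  have h1 := h 1
  constructor
  · calc (1 : ℝ) / 40 ≤ 159 / 1000 * (159 / 1000) := by norm_num
      _ ≤ _ := mul_le_mul h0.1 h1.1 (by norm_num) (by linarith)
  · calc _ ≤ (2 : ℝ) * 2 := mul_le_mul h0.2 h1.2 (by linarith) (by norm_num)
      _ ≤ 40 := by norm_num

/-- the constant for the primes dividing `Q` -/
noncomputable def cQ (Q : ℕ) : ℝ := 40 ^ Q.primeFactors.card

lemma cQ_ge (Q : ℕ) : 1 ≤ cQ Q := one_le_pow₀ (by norm_num)

lemma Pf_bounds (R : Rel Q lam d N f w) {s : ℂ} (hs : 1 / 4 ≤ s.re) :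
    1 / cQ Q ≤ ‖Pf Q f s‖ ∧ ‖Pf Q f s‖ ≤ cQ Q := by
  have h : ∀ p ∈ Q.primeFactors, 1 / 40 ≤ ‖(fac f p s)⁻¹‖ ∧ ‖(fac f p s)⁻¹‖ ≤ 40 := by
    intro p hp
    have h1 := fac_bounds R (Nat.prime_of_mem_primeFactors hp) hs
    have h2 : 0 < ‖fac f p s‖ := by linarith [h1.1]
    rw [norm_inv]
    constructor
    · rw [one_div]
      exact inv_anti₀ h2 h1.2
    · have h3 := one_div_le_one_div_of_le (by norm_num : (0 : ℝ) < 1 / 40) h1.1
      rw [one_div, one_div, one_div, inv_inv] at h3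
      exact h3
  unfold Pf
  rw [norm_prod]
  constructor
  · calc 1 / cQ Q = ∏ p ∈ Q.primeFactors, (1 / 40 : ℝ) := by
          rw [Finset.prod_const]
          unfold cQ
          rw [one_div, one_div, inv_pow]
      _ ≤ _ := Finset.prod_le_prod (fun _ _ => by norm_num) fun p hp => (h p hp).1
  · calc _ ≤ ∏ p ∈ Q.primeFactors, (40 : ℝ) :=
          Finset.prod_le_prod (fun _ _ => norm_nonneg _) fun p hp => (h p hp).2
      _ = cQ Q := by rw [Finset.prod_const]; rfl

lemma fac_diff (f : CuspForm (Gamma0 N : Subgroup (GL (Fin 2) ℝ)) 2) {p : ℕ} (hp : p.Prime) :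
    Differentiable ℂ (fac f p) := by
  have hp0 : (p : ℂ) ≠ 0 := by exact_mod_cast hp.ne_zero
  unfold fac
  split_ifs
  · exact ((differentiable_const _).sub ((differentiable_const _).mul
      (differentiable_neg.const_cpow (Or.inl hp0)))).add (differentiable_const _)
  · refine ((differentiable_const _).sub ((differentiable_const _).mul
      (differentiable_neg.const_cpow (Or.inl hp0)))).add ?_
    exact ((differentiable_id.const_mul (-2 : ℂ))).const_cpow (Or.inl hp0)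

lemma Pf_diff (R : Rel Q lam d N f w) : DifferentiableOn ℂ (Pf Q f) {s : ℂ | 1 / 4 < s.re} := by
  unfold Pf
  apply DifferentiableOn.fun_finsetProd
  intro p hp s hs
  have hs' : 1 / 4 < s.re := hs
  have h1 := fac_bounds R (Nat.prime_of_mem_primeFactors hp) hs'.le
  refine ((fac_diff f (Nat.prime_of_mem_primeFactors hp) s).inv ?_).differentiableWithinAt
  rw [← norm_pos_iff]
  linarith [h1.1]

section

variable [NeZero N]

/-- the Dirichlet series -/
theorem newf_series (T : Twists Q lam) (hd : Squarefree d) (R : Rel Q lam d N f w) {s : ℂ}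
    (hs : 2 < s.re) :
    ∑' n : ℕ, (W388.lamf f n : ℂ) * (n : ℂ) ^ (-s) = T.Lq d s * Pf Q f s := by
  classical
  have H := T.hecke
  obtain ⟨-, h1⟩ := newf_facts R.newf (s := s) (by linarith)
  have h2 := hL_euler H d s hs
  set g : ℕ → ℂ := fun p => if p.Prime then (fac f p s)⁻¹ else 1 with hg
  have h3 : HasProd g (∑' n : ℕ, (W388.lamf f n : ℂ) * (n : ℂ) ^ (-s)) := by
    have h4 := Function.Injective.hasProd_iff (f := g) (a := ∑' n : ℕ, (W388.lamf f n : ℂ) *
      (n : ℂ) ^ (-s)) (g := fun p : Nat.Primes => (p : ℕ)) Subtype.coe_injective (by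
        intro x hx
        simp only [hg]
        rw [if_neg]
        intro hp
        exact hx ⟨⟨x, hp⟩, rfl⟩)
    refine h4.mp ?_
    convert h1 using 1
    funext p
    simp only [hg, Function.comp]
    rw [if_pos p.2]
    rfl
  have h4 : HasProd (fun p => if p ∈ Q.primeFactors then (fac f p s)⁻¹ else 1) (Pf Q f s) := by
    have h5 : HasProd (fun p => if p ∈ Q.primeFactors then (fac f p s)⁻¹ else 1)
        (∏ p ∈ Q.primeFactors, if p ∈ Q.primeFactors then (fac f p s)⁻¹ else 1) :=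
      hasProd_prod_of_ne_finset_one (fun p hp => if_neg hp)
    rwa [Finset.prod_congr rfl fun p hp => if_pos hp] at h5
  have h5 := h2.mul h4
  have h6 : T.Lq d s = LSeries (hL lam d) s := Lq_series T hd (by linarith)
  rw [h6]
  refine h3.unique ?_
  convert h5 using 1
  funext p
  simp only [hg]
  by_cases hp : p.Prime
  swap
  · rw [if_neg hp, lf, if_neg (by tauto), if_neg (fun h => hp (Nat.prime_of_mem_primeFactors h)),
      one_mul]
  rw [if_pos hp]
  by_cases hpQ : p ∣ Q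
  · rw [lf, if_neg (by tauto), one_mul, if_pos (Nat.mem_primeFactors.mpr ⟨hp, hpQ, H.pos.ne'⟩)]
  · rw [lf, if_pos ⟨hp, hpQ⟩, if_neg (fun h => hpQ (Nat.dvd_of_mem_primeFactors h)), mul_one]
    congr 1
    unfold fac
    have : Fact p.Prime := ⟨hp⟩
    by_cases hpd : (p : ℤ) ∣ d
    · obtain ⟨e1, e2⟩ := R.ram p hp hpQ hpd
      have e3 : js d p = 0 := by
        rw [js_prime, (ZMod.intCast_zmod_eq_zero_iff_dvd d p).mpr hpd]
        simp
      rw [if_pos e1, e2, e3]
      simp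
    · obtain ⟨e1, e2⟩ := R.unr p hp hpQ hpd
      have e3 : (js d p : ℂ) ^ 2 = 1 := by
        have hd0 : (d : ZMod p) ≠ 0 := by
          rwa [Ne, ZMod.intCast_zmod_eq_zero_iff_dvd]
        rw [js_prime]
        have e2 := quadraticChar_sq_one hd0
        exact_mod_cast congrArg (fun z : ℤ => (z : ℂ)) e2
      have e4 : (p : ℂ) ^ (-2 * s) = ((p : ℂ) ^ (-s)) ^ 2 := by
        rw [← Complex.cpow_nat_mul]
        congr 1
        push_cast
        ring
      rw [if_neg e1, e2, e4, mul_pow, e3]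
      push_cast
      ring

/-- **the completed `L`-function of the newform and `Lq`** -/
theorem newf_eq (T : Twists Q lam) (hd : Squarefree d) (R : Rel Q lam d N f w) {s : ℂ}
    (hs : 1 / 4 < s.re) :
    LL (gE f) 0 (s - 1 / 2) = gamE (2 * Real.pi / Real.sqrt N) (s - 1 / 2) *
      (T.Lq d s * Pf Q f s) := by
  have hN := sqN_pos' (N := N)
  have hpi := Real.pi_pos
  have hκ : 0 < 2 * Real.pi / Real.sqrt N := by positivity
  obtain ⟨A, c, k⟩ := gE_kern f R.newf
  have hUo : IsOpen {s : ℂ | 1 / 4 < s.re} := isOpen_lt continuous_const Complex.continuous_re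
  have hA1 : AnalyticOnNhd ℂ (fun s : ℂ => LL (gE f) 0 (s - 1 / 2)) {s : ℂ | 1 / 4 < s.re} := by
    have h1 : Differentiable ℂ (fun s : ℂ => LL (gE f) 0 (s - 1 / 2)) :=
      (k.differentiable 0).comp (by fun_prop)
    exact h1.differentiableOn.analyticOnNhd hUo
  have hA2 : AnalyticOnNhd ℂ (fun s : ℂ => gamE (2 * Real.pi / Real.sqrt N) (s - 1 / 2))
      {s : ℂ | 1 / 4 < s.re} := by
    have h1 : DifferentiableOn ℂ (fun s : ℂ => gamE (2 * Real.pi / Real.sqrt N) (s - 1 / 2))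
        {s : ℂ | 1 / 4 < s.re} := by
      intro z hz
      have hz' : 1 / 4 < z.re := hz
      have h2 : DifferentiableAt ℂ Complex.Gamma (z - 1 / 2 + 1) := by
        apply differentiableAt_Gamma
        intro m hm
        have := congrArg Complex.re hm
        simp at this
        have h3 : (0 : ℝ) ≤ m := Nat.cast_nonneg m
        linarith
      have h3 : DifferentiableAt ℂ (fun z : ℂ => Complex.Gamma (z - 1 / 2 + 1)) z :=
        DifferentiableAt.comp z (f := fun z : ℂ => z - 1 / 2 + 1) h2 (by fun_prop)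
      have hκc : ((2 * Real.pi / Real.sqrt N : ℝ) : ℂ) ≠ 0 := by exact_mod_cast hκ.ne'
      have h4 : DifferentiableAt ℂ (fun z : ℂ => ((2 * Real.pi / Real.sqrt N : ℝ) : ℂ) ^
          (-(z - 1 / 2 + 1))) z := by
        apply DifferentiableAt.const_cpow
        · fun_prop
        · exact Or.inl hκc
      exact (h3.mul h4).differentiableWithinAt
    exact h1.analyticOnNhd hUo
  have hA3 := Lq_analytic T hd
  have hA4 : AnalyticOnNhd ℂ (Pf Q f) {s : ℂ | 1 / 4 < s.re} := (Pf_diff R).analyticOnNhd hUo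
  have hev : (fun s : ℂ => LL (gE f) 0 (s - 1 / 2)) =ᶠ[𝓝 (3 : ℂ)]
      (fun s : ℂ => gamE (2 * Real.pi / Real.sqrt N) (s - 1 / 2)) * (T.Lq d * Pf Q f) := by
    have : {s : ℂ | 2 < s.re} ∈ 𝓝 (3 : ℂ) :=
      (isOpen_lt continuous_const Complex.continuous_re).mem_nhds (by norm_num)
    filter_upwards [this] with s hs
    have hs' : 2 < s.re := hs
    rw [LL_series R.newf (by linarith : 1 < s.re)]
    rw [newf_series T hd R hs']
    simp only [Pi.mul_apply]
    unfold gamE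
    have e : s - 1 / 2 + 1 = s + 1 / 2 := by ring
    rw [e]
  have h4 := hA1.eqOn_of_preconnected_of_eventuallyEq (hA2.mul (hA3.mul hA4)) (half_preconn (1 / 4))
    (z₀ := 3) (by show (1 / 4 : ℝ) < (3 : ℂ).re; norm_num) hev
  exact h4 hs

end

end Pool.Agent.H466.TW
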