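import Pool.Agent.H466.TW.C1

/-!
# The conductor of the twisted newform
-/

set_option autoImplicit false

open Complex MeasureTheory Filter Topology Set MatrixGroups CongruenceSubgroup
open UpperHalfPlane hiding I re im
open scoped ComplexConjugate

namespace Pool.Agent.H466.TW

open Pool.Agent.Y19.QT
open Pool.Agent.H306R2.RZ (js)
open Pool.Agent.H466.HF
open Pool.Agent.Y703.QT8 (q_pos q_ne q_cast)

variable {Q : ℕ} {lam : ℕ → ℝ}

lemma gamE_norm {κ : ℝ} (hκ : 0 < κ) (z : ℂ) :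
    ‖gamE κ z‖ = ‖Complex.Gamma (z + 1)‖ * κ ^ (-(z.re + 1)) := by
  unfold gamE
  rw [norm_mul, Complex.norm_cpow_eq_rpow_re_of_pos hκ]
  simp

/-- the functional equation of `ell` -/
lemma ell_fe (T : Twists Q lam) {d : ℤ} (hd : Squarefree d) {s : ℂ} (h1 : 0 < s.re)
    (h2 : s.re < 1) :
    ‖gamE (2 * Real.pi / T.q d) (1 - s - 1 / 2)‖ * ‖T.ell d (1 - s)‖ =
      ‖gamE (2 * Real.pi / T.q d) (s - 1 / 2)‖ * ‖T.ell d s‖ := by
  have hq := q_pos T hd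
  have hpi := Real.pi_pos
  have hκ : 0 < 2 * Real.pi / T.q d := by positivity
  have hκc : ((2 * Real.pi / T.q d : ℝ) : ℂ) ≠ 0 := by exact_mod_cast hκ.ne'
  have key : ∀ s : ℂ, 0 < s.re →
      gamE (2 * Real.pi / T.q d) (s - 1 / 2) * T.ell d s =
        mellin (fun u : ℝ => T.F d (u : ℂ)) (s + 1 / 2) := by
    intro s hs
    have hG : Complex.Gamma (s + 1 / 2) ≠ 0 := Complex.Gamma_ne_zero_of_re_pos (by
      have : (s + 1 / 2).re = s.re + 1 / 2 := by simp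
      rw [this]; linarith)
    have hp : ((2 * Real.pi / T.q d : ℝ) : ℂ) ^ (s + 1 / 2) ≠ 0 := by
      rw [Complex.cpow_ne_zero_iff]; exact Or.inl hκc
    have e1 : s - 1 / 2 + 1 = s + 1 / 2 := by ring
    have e2 : (2 * Real.pi / (T.q d : ℂ)) = ((2 * Real.pi / T.q d : ℝ) : ℂ) := by push_cast; rfl
    unfold gamE Twists.ell
    rw [e1, e2, Complex.cpow_neg]
    generalize Complex.Gamma (s + 1 / 2) = G at hG ⊢
    generalize ((2 * Real.pi / T.q d : ℝ) : ℂ) ^ (s + 1 / 2) = P at hp ⊢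
    generalize mellin (fun u : ℝ => T.F d (u : ℂ)) (s + 1 / 2) = M
    field_simp
  have hw : ‖(T.w d : ℂ)‖ = 1 := by
    rw [Complex.norm_real, Real.norm_eq_abs]
    have h3 := T.w_sq d hd
    have h4 : |T.w d| ^ 2 = 1 := by rw [sq_abs]; exact h3
    have h5 := abs_nonneg (T.w d)
    nlinarith
  have e1 : (1 - s + 1 / 2 : ℂ) = 2 - (s + 1 / 2) := by ring
  have h3 := key (1 - s) (by rw [sub_re, one_re]; linarith)
  rw [← norm_mul, h3, e1, mellin_fe T hd, norm_mul, hw, one_mul, ← key s h1, norm_mul]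

lemma exists_ne (T : Twists Q lam) {d : ℤ} (hd : Squarefree d) :
    ∃ y : ℝ, T.ell d (((2 / 3 : ℝ) : ℂ) + y * I) ≠ 0 := by
  by_contra h
  push Not at h
  have hdiff := (Pool.Agent.Y703.QT8.T8a T d hd).1
  have hA : AnalyticOnNhd ℂ (T.ell d) Set.univ := hdiff.differentiableOn.analyticOnNhd isOpen_univ
  have hfr : ∃ᶠ z in 𝓝[≠] (((2 / 3 : ℝ) : ℂ)), T.ell d z = 0 := by
    rw [Filter.frequently_iff]
    intro U hU
    rw [mem_nhdsWithin_iff_exists_mem_nhds_inter] at hU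
    obtain ⟨V, hV, hVU⟩ := hU
    have hc : Tendsto (fun y : ℝ => ((2 / 3 : ℝ) : ℂ) + y * I) (𝓝 0) (𝓝 (((2 / 3 : ℝ) : ℂ))) := by
      have : Continuous fun y : ℝ => ((2 / 3 : ℝ) : ℂ) + y * I := by fun_prop
      have h2 := this.tendsto 0
      simpa using h2
    have h1 := hc hV
    rw [Filter.mem_map, Metric.mem_nhds_iff] at h1
    obtain ⟨ε, hε, h2⟩ := h1
    have h3 : ε / 2 ∈ Metric.ball (0 : ℝ) ε := by
      rw [Metric.mem_ball, dist_zero_right, Real.norm_eq_abs, abs_of_pos (by linarith)]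
      linarith
    have h4 := h2 h3
    refine ⟨((2 / 3 : ℝ) : ℂ) + (ε / 2 : ℝ) * I, hVU ⟨h4, ?_⟩, h _⟩
    intro h5
    have h6 := congrArg Complex.im h5
    simp at h6
    linarith
  have h0 := hA.eqOn_zero_of_preconnected_of_frequently_eq_zero isPreconnected_univ
    (Set.mem_univ _) hfr
  have h1 : T.ell d 2 = 0 := h0 (Set.mem_univ _)
  have h2 := (Lq_abs T hd (s := 2) (by norm_num)).2
  have h3 := (ell_le T hd (s := 2) (by norm_num)).2
  rw [h1, norm_zero, mul_zero] at h3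
  have h4 : ‖T.Lq d 2‖ = 0 := le_antisymm h3 (norm_nonneg _)
  rw [h4, mul_zero] at h2
  linarith

/-- the constant in the comparison of the conductors -/
noncomputable def RR (T : Twists Q lam) : ℝ := T.c * (T.c ^ 2 * cQ Q ^ 2) ^ 3

lemma RR_ge (T : Twists Q lam) : 1 ≤ RR T := by
  have h1 := T.one_le_c
  have h2 := cQ_ge Q
  unfold RR
  have h3 : (1 : ℝ) ≤ (T.c ^ 2 * cQ Q ^ 2) ^ 3 := by
    apply one_le_pow₀
    exact one_le_mul_of_one_le_of_one_le (one_le_pow₀ h1) (one_le_pow₀ h2)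
  exact one_le_mul_of_one_le_of_one_le h1 h3

theorem cond_bounds (T : Twists Q lam) {d : ℤ} (hd : Squarefree d) {N : ℕ} [NeZero N]
    {f : CuspForm (Gamma0 N : Subgroup (GL (Fin 2) ℝ)) 2} {w : ℝ} (R : Rel Q lam d N f w) :
    |(d : ℝ)| ≤ RR T * Real.sqrt N ∧ Real.sqrt N ≤ RR T * |(d : ℝ)| := by
  have hN := sqN_pos' (N := N)
  have hpi := Real.pi_pos
  have hq := q_pos T hd
  have hc := T.one_le_c
  have hcQ := cQ_ge Q
  set κ := 2 * Real.pi / Real.sqrt N with hκdef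
  set κq := 2 * Real.pi / T.q d with hκqdef
  have hκ : 0 < κ := by positivity
  have hκq : 0 < κq := by positivity
  obtain ⟨y, hy⟩ := exists_ne T hd
  set s : ℂ := ((2 / 3 : ℝ) : ℂ) + y * I with hs
  set s' : ℂ := ((1 / 3 : ℝ) : ℂ) + y * I with hs'
  have hsr : s.re = 2 / 3 := by rw [hs]; simp
  have hsr' : s'.re = 1 / 3 := by rw [hs']; simp
  have hss : 1 - s = conj s' := by
    apply Complex.ext
    · simp [hs, hs']; norm_num
    · simp [hs, hs']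
  -- the first relation
  have h1 := ell_fe T hd (s := s) (by rw [hsr]; norm_num) (by rw [hsr]; norm_num)
  rw [hss, (Pool.Agent.Y703.QT8.T8a T d hd).2.2.1 s', RCLike.norm_conj] at h1
  have e1 : conj s' - 1 / 2 = conj (s' - 1 / 2) := by
    apply Complex.ext <;> simp
  rw [e1, gamE_norm hκq, gamE_norm hκq] at h1
  have e2 : conj (s' - 1 / 2) + 1 = conj (s' - 1 / 2 + 1) := by simp
  rw [e2, Complex.Gamma_conj, RCLike.norm_conj, Complex.conj_re] at h1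
  have r1 : (s' - 1 / 2 : ℂ).re + 1 = 5 / 6 := by
    have : (s' - 1 / 2 : ℂ).re = s'.re - 1 / 2 := by simp
    rw [this, hsr']; norm_num
  have r2 : (s - 1 / 2 : ℂ).re + 1 = 7 / 6 := by
    have : (s - 1 / 2 : ℂ).re = s.re - 1 / 2 := by simp
    rw [this, hsr]; norm_num
  rw [r1, r2] at h1
  -- the second relation
  have h2 : ‖LL (gE f) 0 (s' - 1 / 2)‖ = ‖LL (gE f) 0 (s - 1 / 2)‖ := by
    have h3 := LL_fe R.newf 0 (s' - 1 / 2)
    have e3 : -conj (s' - 1 / 2) = s - 1 / 2 := by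
      apply Complex.ext
      · simp [hs, hs']; norm_num
      · simp [hs, hs']
    rw [e3] at h3
    rw [h3, norm_mul, RCLike.norm_conj, Complex.norm_real, Real.norm_eq_abs]
    have h4 : |w| = 1 := by
      rcases R.newf.sign with h | h <;> rw [h] <;> simp
    rw [h4, one_mul]
  rw [newf_eq T hd R (by rw [hsr']; norm_num), newf_eq T hd R (by rw [hsr]; norm_num), norm_mul,
    norm_mul, norm_mul, norm_mul, gamE_norm hκ, gamE_norm hκ, r1, r2] at h2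
  set G1 := ‖Complex.Gamma (s' - 1 / 2 + 1)‖ with hG1
  set G2 := ‖Complex.Gamma (s - 1 / 2 + 1)‖ with hG2
  have hG1p : 0 < G1 := norm_pos_iff.mpr (Complex.Gamma_ne_zero_of_re_pos (by
    rw [add_re, one_re, r1]; norm_num))
  have hG2p : 0 < G2 := norm_pos_iff.mpr (Complex.Gamma_ne_zero_of_re_pos (by
    rw [add_re, one_re, r2]; norm_num))
  have he : 0 < ‖T.ell d s‖ := norm_pos_iff.mpr hy
  have hpw : ∀ k : ℝ, 0 < k → k ^ (-(7 / 6) : ℝ) * k ^ (1 / 3 : ℝ) = k ^ (-(5 / 6) : ℝ) := by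
    intro k hk
    rw [← Real.rpow_add hk]
    norm_num
  have hκ3 : 0 < κ ^ (1 / 3 : ℝ) := by positivity
  have hκq3 : 0 < κq ^ (1 / 3 : ℝ) := by positivity
  have f1 : G1 * ‖T.ell d s'‖ * κq ^ (1 / 3 : ℝ) = G2 * ‖T.ell d s‖ := by
    have h7 : 0 < κq ^ (-(7 / 6) : ℝ) := by positivity
    have h8 := hpw κq hκq
    apply mul_left_cancel₀ h7.ne'
    calc κq ^ (-(7 / 6) : ℝ) * (G1 * ‖T.ell d s'‖ * κq ^ (1 / 3 : ℝ))
        = G1 * (κq ^ (-(7 / 6) : ℝ) * κq ^ (1 / 3 : ℝ)) * ‖T.ell d s'‖ := by ring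
      _ = G1 * κq ^ (-(5 / 6) : ℝ) * ‖T.ell d s'‖ := by rw [h8]
      _ = G2 * κq ^ (-(7 / 6) : ℝ) * ‖T.ell d s‖ := h1
      _ = _ := by ring
  have f2 : G1 * (‖T.Lq d s'‖ * ‖Pf Q f s'‖) * κ ^ (1 / 3 : ℝ) =
      G2 * (‖T.Lq d s‖ * ‖Pf Q f s‖) := by
    have h7 : 0 < κ ^ (-(7 / 6) : ℝ) := by positivity
    have h8 := hpw κ hκ
    apply mul_left_cancel₀ h7.ne'
    calc κ ^ (-(7 / 6) : ℝ) * (G1 * (‖T.Lq d s'‖ * ‖Pf Q f s'‖) * κ ^ (1 / 3 : ℝ))
        = G1 * (κ ^ (-(7 / 6) : ℝ) * κ ^ (1 / 3 : ℝ)) * (‖T.Lq d s'‖ * ‖Pf Q f s'‖) := by ring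
      _ = G1 * κ ^ (-(5 / 6) : ℝ) * (‖T.Lq d s'‖ * ‖Pf Q f s'‖) := by rw [h8]
      _ = G2 * κ ^ (-(7 / 6) : ℝ) * (‖T.Lq d s‖ * ‖Pf Q f s‖) := h2
      _ = _ := by ring
  obtain ⟨a1, a2⟩ := ell_le T hd (s := s) (by rw [hsr]; norm_num)
  obtain ⟨b1, b2⟩ := ell_le T hd (s := s') (by rw [hsr']; norm_num)
  obtain ⟨c1, c2⟩ := Pf_bounds R (s := s) (by rw [hsr]; norm_num)
  obtain ⟨d1, d2⟩ := Pf_bounds R (s := s') (by rw [hsr']; norm_num)
  have hcQ0 : 0 < cQ Q := by linarith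
  have hc0 : 0 < T.c := by linarith
  rw [div_le_iff₀ hcQ0] at c1 d1
  set A := T.c ^ 2 * cQ Q ^ 2 with hA
  have hA0 : 0 < A := by positivity
  -- abbreviations
  set e := ‖T.ell d s‖
  set e' := ‖T.ell d s'‖
  set l := ‖T.Lq d s‖
  set l' := ‖T.Lq d s'‖
  set p := ‖Pf Q f s‖
  set p' := ‖Pf Q f s'‖
  have ne' : 0 ≤ e' := norm_nonneg _
  have nl : 0 ≤ l := norm_nonneg _
  have nl' : 0 ≤ l' := norm_nonneg _
  have np : 0 ≤ p := norm_nonneg _
  have np' : 0 ≤ p' := norm_nonneg _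
  have he'p : 0 < e' := by
    rcases ne'.lt_or_eq with h | h
    · exact h
    · exfalso
      rw [← h] at f1
      have : 0 < G2 * e := by positivity
      rw [← f1] at this
      simp at this
  have hlp : e ≤ (T.c * cQ Q) * (l * p) := by
    calc e ≤ T.c * l := a1
      _ = T.c * l * 1 := by ring
      _ ≤ T.c * l * (p * cQ Q) := mul_le_mul_of_nonneg_left c1 (by positivity)
      _ = _ := by ring
  have hlp' : e' ≤ (T.c * cQ Q) * (l' * p') := by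
    calc e' ≤ T.c * l' := b1
      _ = T.c * l' * 1 := by ring
      _ ≤ T.c * l' * (p' * cQ Q) := mul_le_mul_of_nonneg_left d1 (by positivity)
      _ = _ := by ring
  have hlq : l * p ≤ (T.c * cQ Q) * e := by
    calc l * p ≤ (T.c * e) * cQ Q := mul_le_mul a2 c2 np (by positivity)
      _ = _ := by ring
  have hlq' : l' * p' ≤ (T.c * cQ Q) * e' := by
    calc l' * p' ≤ (T.c * e') * cQ Q := mul_le_mul b2 d2 np' (by positivity)
      _ = _ := by ring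
  have k1 : κ ^ (1 / 3 : ℝ) ≤ A * κq ^ (1 / 3 : ℝ) := by
    have h9 : (G1 * e') * κ ^ (1 / 3 : ℝ) ≤ (G1 * e') * (A * κq ^ (1 / 3 : ℝ)) := by
      calc (G1 * e') * κ ^ (1 / 3 : ℝ) ≤ (G1 * ((T.c * cQ Q) * (l' * p'))) * κ ^ (1 / 3 : ℝ) := by
            gcongr
        _ = (T.c * cQ Q) * (G1 * (l' * p') * κ ^ (1 / 3 : ℝ)) := by ring
        _ = (T.c * cQ Q) * (G2 * (l * p)) := by rw [f2]
        _ ≤ (T.c * cQ Q) * (G2 * ((T.c * cQ Q) * e)) := by gcongr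
        _ = A * (G2 * e) := by rw [hA]; ring
        _ = A * (G1 * e' * κq ^ (1 / 3 : ℝ)) := by rw [f1]
        _ = _ := by ring
    exact le_of_mul_le_mul_left h9 (by positivity)
  have k2 : κq ^ (1 / 3 : ℝ) ≤ A * κ ^ (1 / 3 : ℝ) := by
    have h9 : (G1 * e') * κq ^ (1 / 3 : ℝ) ≤ (G1 * e') * (A * κ ^ (1 / 3 : ℝ)) := by
      calc (G1 * e') * κq ^ (1 / 3 : ℝ) = G2 * e := by rw [f1]
        _ ≤ G2 * ((T.c * cQ Q) * (l * p)) := by gcongr
        _ = (T.c * cQ Q) * (G2 * (l * p)) := by ring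
        _ = (T.c * cQ Q) * (G1 * (l' * p') * κ ^ (1 / 3 : ℝ)) := by rw [f2]
        _ ≤ (T.c * cQ Q) * (G1 * ((T.c * cQ Q) * e') * κ ^ (1 / 3 : ℝ)) := by gcongr
        _ = _ := by rw [hA]; ring
    exact le_of_mul_le_mul_left h9 (by positivity)
  have hcube : ∀ k : ℝ, 0 < k → (k ^ (1 / 3 : ℝ)) ^ 3 = k := by
    intro k hk
    rw [← Real.rpow_natCast, ← Real.rpow_mul hk.le]
    norm_num
  have m1 : κ ≤ A ^ 3 * κq := by
    have := pow_le_pow_left₀ hκ3.le k1 3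
    rw [mul_pow, hcube κ hκ, hcube κq hκq] at this
    exact this
  have m2 : κq ≤ A ^ 3 * κ := by
    have := pow_le_pow_left₀ hκq3.le k2 3
    rw [mul_pow, hcube κ hκ, hcube κq hκq] at this
    exact this
  have hlow := T.q_lower d hd
  have hup := T.q_upper d hd
  have hA3 : 0 < A ^ 3 := by positivity
  have n1 : T.q d ≤ A ^ 3 * Real.sqrt N := by
    rw [hκdef, hκqdef, ← mul_div_assoc, div_le_div_iff₀ hN hq] at m1
    have h2pi : 0 < 2 * Real.pi := by positivity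
    nlinarith
  have n2 : Real.sqrt N ≤ A ^ 3 * T.q d := by
    rw [hκdef, hκqdef, ← mul_div_assoc, div_le_div_iff₀ hq hN] at m2
    have h2pi : 0 < 2 * Real.pi := by positivity
    nlinarith
  constructor
  · calc |(d : ℝ)| ≤ T.c * T.q d := hlow
      _ ≤ T.c * (A ^ 3 * Real.sqrt N) := mul_le_mul_of_nonneg_left n1 hc0.le
      _ = _ := by unfold RR; ring
  · calc Real.sqrt N ≤ A ^ 3 * T.q d := n2
      _ ≤ A ^ 3 * (T.c * |(d : ℝ)|) := mul_le_mul_of_nonneg_left hup hA3.le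
      _ = _ := by unfold RR; ring

end Pool.Agent.H466.TW
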