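import Pool.Agent.H466.TW.C2
import Pool.Agent.H466.HF.EC4

/-!
# The heat flow for good twists
-/

set_option autoImplicit false

open Complex MeasureTheory Filter Topology Set MatrixGroups CongruenceSubgroup
open UpperHalfPlane hiding I re im
open scoped ComplexConjugate

namespace Pool.Agent.H466.TW

open Pool.Agent.Y19.QT
open Pool.Agent.H306R2.RZ (js)
open Pool.Agent.H466.HF

variable {Q : ℕ} {lam : ℕ → ℝ}

lemma el_near {X : ℕ} (hX : 3 ≤ X) {t τ : ℝ} (h : |τ - t| ≤ 2) : el X τ ≤ 2 * el X t := by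
  have hL := Pool.Agent.Y703.QT12.log_ge_one hX
  have h1 : EE X τ ≤ 2 * EE X t := by
    have h2 := abs_sub_abs_le_abs_sub τ t
    unfold EE
    have h3 := abs_nonneg t
    nlinarith
  have h2 := EE_ge hX t
  have h3 := EE_ge hX τ
  have h4 : el X τ ≤ Real.log (2 * EE X t) := Real.log_le_log (by linarith) h1
  rw [Real.log_mul (by norm_num) (by linarith)] at h4
  have h5 := el_ge' hX t
  unfold el at *
  linarith

lemma el_far {X : ℕ} (hX : 3 ≤ X) (t τ : ℝ) : el X τ ≤ el X t + |τ - t| := by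
  have hL := Pool.Agent.Y703.QT12.log_ge_one hX
  have h1 : EE X τ ≤ EE X t * (1 + |τ - t|) := by
    have h2 := abs_sub_abs_le_abs_sub τ t
    unfold EE
    have h3 := abs_nonneg t
    have h4 := abs_nonneg (τ - t)
    nlinarith [mul_nonneg h3 h4]
  have h2 := EE_ge hX t
  have h3 := EE_ge hX τ
  have h4 := abs_nonneg (τ - t)
  have h5 : el X τ ≤ Real.log (EE X t * (1 + |τ - t|)) := Real.log_le_log (by linarith) h1
  rw [Real.log_mul (by linarith) (by linarith)] at h5
  have h6 := Real.log_le_sub_one_of_pos (show 0 < 1 + |τ - t| by linarith)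
  unfold el at *
  linarith

/-- the size law for the newforms -/
theorem size_newf (T : Twists Q lam) (w0 : ℕ) : ∃ C : ℝ, 1 ≤ C ∧ ∀ (X : ℕ) (d : ℤ), 3 ≤ X →
    Squarefree d → Good T w0 X d → ∀ (N : ℕ) (f : CuspForm (Gamma0 N : Subgroup (GL (Fin 2) ℝ)) 2)
      (w : ℝ), Rel Q lam d N f w → ∀ s : ℂ,
    (1 / 2 + 1 / Real.log X ≤ s.re → ‖T.Lq d s * Pf Q f s‖ ≤ Real.exp (C * el X s.im)) ∧
    (1 / 2 + C * el X s.im / Real.log X ≤ s.re →
      Real.exp (-(C * el X s.im)) ≤ ‖T.Lq d s * Pf Q f s‖) := by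
  obtain ⟨C1, hC1, h1⟩ := size_upper T w0
  obtain ⟨C2, hC2, h2⟩ := size_lower T w0
  have hcQ := cQ_ge Q
  have hlQ := Real.log_nonneg hcQ
  refine ⟨C1 + C2 + 2 * Real.log (cQ Q), by linarith, fun X d hX hd hG N f w R s => ?_⟩
  have hL := Pool.Agent.Y703.QT12.log_ge_one hX
  have hL0 : 0 < Real.log X := by linarith
  have hel := el_ge hX s.im
  have hL1 : 0 < 1 / Real.log X := by positivity
  constructor
  · intro hs
    obtain ⟨-, hp⟩ := Pf_bounds R (s := s) (by linarith)
    have h3 := h1 X d hX hd hG s hs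
    rw [norm_mul]
    calc ‖T.Lq d s‖ * ‖Pf Q f s‖ ≤ Real.exp (C1 * el X s.im) * cQ Q :=
          mul_le_mul h3 hp (norm_nonneg _) (Real.exp_pos _).le
      _ = Real.exp (C1 * el X s.im + Real.log (cQ Q)) := by
          rw [Real.exp_add, Real.exp_log (by linarith)]
      _ ≤ _ := by
          apply Real.exp_le_exp.mpr
          nlinarith
  · intro hs
    have hs2 : 1 / 2 + C2 * el X s.im / Real.log X ≤ s.re := by
      refine le_trans ?_ hs
      have : C2 * el X s.im / Real.log X ≤
          (C1 + C2 + 2 * Real.log (cQ Q)) * el X s.im / Real.log X := by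
        apply div_le_div_of_nonneg_right _ hL0.le
        nlinarith
      linarith
    have hre : 1 / 2 ≤ s.re := by
      have : 0 ≤ C2 * el X s.im / Real.log X := by positivity
      linarith
    obtain ⟨hp, -⟩ := Pf_bounds R (s := s) (by linarith)
    have h3 := h2 X d hX hd hG s hs2
    rw [norm_mul]
    calc Real.exp (-((C1 + C2 + 2 * Real.log (cQ Q)) * el X s.im))
        ≤ Real.exp (-(C2 * el X s.im) + -Real.log (cQ Q)) := by
          apply Real.exp_le_exp.mpr
          nlinarith
      _ = Real.exp (-(C2 * el X s.im)) * (1 / cQ Q) := by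
          rw [Real.exp_add, Real.exp_neg (Real.log _), Real.exp_log (by linarith), one_div]
      _ ≤ _ := mul_le_mul h3 hp (by positivity) (norm_nonneg _)

theorem flow_good (T : Twists Q lam) (w0 : ℕ) : ∃ C L0 : ℝ, 1 ≤ C ∧ ∀ (X : ℕ) (d : ℤ), 3 ≤ X →
    L0 ≤ Real.log X → Squarefree d → (X : ℝ) ≤ |(d : ℝ)| ^ 2 → Good T w0 X d →
    ∀ (N : ℕ) [NeZero N] (f : CuspForm (Gamma0 N : Subgroup (GL (Fin 2) ℝ)) 2)
      (w : ℝ), Rel Q lam d N f w → ∀ (lam : ℝ) (z : ℂ), 0 < lam → lam ≤ 1 →
      C * el X z.im ≤ lam * Real.log X ^ 2 → LL (gE f) lam z = 0 →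
      z.re = 0 ∧ deriv (LL (gE f) lam) z ≠ 0 := by
  obtain ⟨C1, hC1, hsize⟩ := size_newf T w0
  obtain ⟨Q0, hheat⟩ := newf_heat (η := 1 / 2) (K := 1) (by norm_num) le_rfl
  have hRR := RR_ge T
  have hlR := Real.log_nonneg hRR
  set κc : ℝ := 3 + (C1 + 12) ^ 2 / 4 with hκc
  have hκc0 : 0 ≤ κc := by positivity
  set D0 : ℝ := 2 ^ 28 * (12 + κc + 1) with hD0
  have hD01 : 1 ≤ D0 := by rw [hD0]; linarith
  refine ⟨64 * D0 * C1, 4 * (Real.log (RR T) + 11) + D0 + 4 * |Q0| + 72, by nlinarith,
    fun X d hX hL0 hd hdX hG N _ f w R lam z hlam hlam1 hlamC hz => ?_⟩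
  have hL := Pool.Agent.Y703.QT12.log_ge_one hX
  set L := Real.log X with hLdef
  have hLp : 0 < L := by linarith
  have hX0 : (0 : ℝ) < X := by exact_mod_cast (by omega : 0 < X)
  have hN := sqN_pos' (N := N)
  have hpi := Real.pi_pos
  have hpi3 := Real.pi_gt_three
  have hpi4 := Real.pi_lt_four
  set κ := 2 * Real.pi / Real.sqrt N with hκdef
  have hκ : 0 < κ := by positivity
  obtain ⟨hc1, -⟩ := cond_bounds T hd R
  set t := z.im with ht
  have hel := el_ge hX t
  have htabs := abs_nonneg t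
  -- the size of `ℒ`
  have hd0 : 0 < |(d : ℝ)| := by
    rw [abs_pos]
    exact_mod_cast hd.ne_zero
  have hlogN : L / 2 - Real.log (RR T) ≤ Real.log (Real.sqrt N) := by
    have h1 : L ≤ 2 * Real.log |(d : ℝ)| := by
      have := Real.log_le_log hX0 hdX
      rw [Real.log_pow] at this
      push_cast at this
      exact this
    have h2 := Real.log_le_log hd0 hc1
    rw [Real.log_mul (by linarith) hN.ne'] at h2
    linarith
  have hlog2pi : Real.log (2 * Real.pi) ≤ 2 := by
    have h1 : 2 * Real.pi ≤ Real.exp 2 := by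
      have h2 : Real.exp 2 = Real.exp 1 * Real.exp 1 := by rw [← Real.exp_add]; norm_num
      have h3 := Real.exp_one_gt_d9
      have h4 := Real.pi_lt_d2
      rw [h2]
      nlinarith
    have := Real.log_le_log (by positivity) h1
    rwa [Real.log_exp] at this
  have hlog2pi0 : 0 ≤ Real.log (2 * Real.pi) := Real.log_nonneg (by linarith)
  have hlogκ : Real.log κ = Real.log (2 * Real.pi) - Real.log (Real.sqrt N) := by
    rw [hκdef, Real.log_div (by positivity) hN.ne']
  have hlog1t : 0 ≤ Real.log (1 + |t|) := Real.log_nonneg (by linarith)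
  have hDE := DE_re (κ := κ) t
  set ℒ := (DE κ ((t : ℂ) * I)).re with hℒ
  rw [abs_le] at hDE
  have habsQ := le_abs_self Q0
  have hℒ4 : L / 4 ≤ ℒ := by
    have h1 := hDE.1
    rw [hlogκ] at h1
    have : 0 ≤ |Q0| := abs_nonneg _
    linarith
  have hℒ0 : 0 < ℒ := by linarith
  have h0Q : 0 ≤ |Q0| := abs_nonneg _
  have him : z.im = t := rfl
  rcases le_or_gt (lam * ℒ) 2 with h2 | h2
  · -- the window
    obtain ⟨A, c, k⟩ := gE_kern f R.newf
    have hε : ‖(w : ℂ)‖ = 1 := by
      rw [Complex.norm_real, Real.norm_eq_abs]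
      rcases R.newf.sign with h | h <;> rw [h] <;> simp
    have hfe : ∀ z : ℂ, LL (gE f) 0 (-conj z) = (w : ℂ) * conj (LL (gE f) 0 z) := by
      intro z
      have h3 := LL_fe R.newf 0 (-conj z)
      have e : -conj (-conj z) = z := by simp
      rw [e] at h3
      exact h3
    set b := 2 * C1 * el X t with hb
    have hb1 : 1 ≤ b := by rw [hb]; nlinarith
    set v1 := lam * ℒ / 4 with hv1
    have hv1L : 4 * C1 * el X t / L ≤ v1 := by
      rw [div_le_iff₀ hLp, hv1]
      have h3 : lam * L ^ 2 / 16 ≤ lam * ℒ / 4 * L := by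
        have : lam * L * (L / 4) ≤ lam * L * ℒ := mul_le_mul_of_nonneg_left hℒ4 (by positivity)
        nlinarith
      have h4 : 64 * C1 * el X t ≤ 64 * D0 * C1 * el X t := by
        have : 0 ≤ 64 * C1 * el X t := by positivity
        nlinarith
      linarith
    have hv1half : v1 ≤ 1 / 2 := by rw [hv1]; linarith
    have hv1pos : 0 < v1 := by positivity
    have hinvL : 1 / L ≤ 2 * C1 * el X t / L := by
      apply div_le_div_of_nonneg_right _ hLp.le
      exact hb1
    have hq : 2 * C1 * el X t / L ≤ v1 / 2 := by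
      have e : 4 * C1 * el X t / L = 2 * (2 * C1 * el X t / L) := by ring
      linarith
    have hFeq : ∀ z : ℂ, 0 ≤ z.re → ‖LL (gE f) 0 z‖ = ‖gamE κ z‖ *
        ‖T.Lq d (z + 1 / 2) * Pf Q f (z + 1 / 2)‖ := by
      intro z hz
      have h3 := newf_eq T hd R (s := z + 1 / 2) (by
        have : (z + 1 / 2 : ℂ).re = z.re + 1 / 2 := by simp
        rw [this]; linarith)
      have e : z + 1 / 2 - 1 / 2 = z := by ring
      rw [e] at h3
      rw [h3, norm_mul]
    have hre : ∀ z : ℂ, (z + 1 / 2 : ℂ).re = z.re + 1 / 2 := fun z => by simp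
    have him2 : ∀ z : ℂ, (z + 1 / 2 : ℂ).im = z.im := fun z => by simp
    have hup : ∀ z : ℂ, v1 / 2 ≤ z.re → ‖LL (gE f) 0 z‖ ≤
        Real.exp (C1 * el X z.im) * ‖gamE κ z‖ := by
      intro z hz
      rw [hFeq z (by linarith), mul_comm]
      apply mul_le_mul_of_nonneg_right _ (norm_nonneg _)
      have h3 := (hsize X d hX hd hG N f w R (z + 1 / 2)).1 (by rw [hre]; linarith)
      rw [him2] at h3
      exact h3
    have hlo : ∀ z : ℂ, v1 / 2 ≤ z.re → |z.im - t| ≤ 2 → Real.exp (-(C1 * el X z.im)) * ‖gamE κ z‖ ≤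
        ‖LL (gE f) 0 z‖ := by
      intro z hz hzt
      rw [hFeq z (by linarith), mul_comm]
      apply mul_le_mul_of_nonneg_left _ (norm_nonneg _)
      have h3 := (hsize X d hX hd hG N f w R (z + 1 / 2)).2 (by
        rw [hre, him2]
        have h4 := el_near hX hzt
        have h5 : C1 * el X z.im / L ≤ 2 * C1 * el X t / L := by
          apply div_le_div_of_nonneg_right _ hLp.le
          nlinarith
        linarith)
      rw [him2] at h3
      exact h3
    have S : SizeW (LL (gE f) 0) (gamE κ) t v1 b (Real.exp (κc * b)) := by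
      refine ⟨k.differentiable 0, fun z hz hzt => ?_, fun z hz hzt => ?_, fun v τ hv0 hv1' hτ => ?_⟩
      · refine le_trans ?_ (hlo z hz hzt)
        apply mul_le_mul_of_nonneg_right _ (norm_nonneg _)
        apply Real.exp_le_exp.mpr
        have h4 := el_near hX hzt
        rw [hb]
        nlinarith
      · refine (hup z hz).trans ?_
        apply mul_le_mul_of_nonneg_right _ (norm_nonneg _)
        apply Real.exp_le_exp.mpr
        have h4 := el_near hX hzt
        rw [hb]
        nlinarith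
      · have h5 := left_of k (gamW_E hκ) hε hfe (K := C1) (b := C1 * el X τ) (v1 := v1) (t0 := τ)
          (by linarith) hv1pos (by linarith) (fun τ' => ?_) ?_ hv0 hv1'
        · refine h5.trans ?_
          apply mul_le_mul_of_nonneg_right _ (norm_nonneg _)
          apply Real.exp_le_exp.mpr
          have h6 := el_near hX (t := t) (τ := τ) (by linarith)
          have h7 : C1 * el X τ ≤ b := by rw [hb]; nlinarith
          have h8 : (C1 + 12) ^ 2 / 4 ≤ (C1 + 12) ^ 2 / 4 * b :=
            le_mul_of_one_le_right (by positivity) hb1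
          rw [hκc]
          nlinarith
        · refine (hup _ (by rw [cz_re]; linarith)).trans ?_
          apply mul_le_mul_of_nonneg_right _ (norm_nonneg _)
          apply Real.exp_le_exp.mpr
          rw [cz_im]
          have h6 := el_far hX τ τ'
          nlinarith
        · have h6 := hlo ((v1 : ℂ) + (τ : ℂ) * I) (by rw [cz_re]; linarith) (by
            rw [cz_im]; linarith)
          rw [cz_im] at h6
          exact h6
    refine window_heat k (gamW_E hκ) hε hfe (κ := κc) (b := b) (lam := lam) (t := t) hκc0 hb1 hlam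
      ?_ h2 ?_ S rfl hz
    · have h3 : 2 ^ 26 * (12 + κc + 1) ≤ D0 / 4 := by rw [hD0]; linarith
      linarith
    · have h3 : lam * L ^ 2 / 16 ≤ lam * ℒ ^ 2 := by
        have h4 : (L / 4) ^ 2 ≤ ℒ ^ 2 := pow_le_pow_left₀ (by positivity) hℒ4 2
        nlinarith
      have h4 : 2 ^ 28 * (12 + κc + 1) * b = D0 * b := by rw [hD0]
      rw [h4, hb]
      have h5 : 0 ≤ D0 * C1 * el X t := by positivity
      linarith
  · -- the old range
    have hNpos : (0 : ℝ) < N := by exact_mod_cast Nat.pos_of_ne_zero (NeZero.ne N)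
    have hlogsq : Real.log (N * (1 + |z.im|) ^ 2) = 2 * (Real.log (Real.sqrt N) + Real.log (1 + |t|)) := by
      rw [Real.log_mul hNpos.ne' (by positivity), Real.log_pow, Real.log_sqrt hNpos.le]
      push_cast
      rw [him]
      ring
    have h3 : ℒ ≤ Real.log (N * (1 + |z.im|) ^ 2) := by
      rw [hlogsq]
      have h4 := hDE.2
      rw [hlogκ] at h4
      linarith
    refine hheat N f w R.newf R.good R.bad lam hlam hlam1 z hz ?_ ?_
    · refine le_trans ?_ h3
      linarith
    · have h4 : lam * ℒ ≤ lam * Real.log (N * (1 + |z.im|) ^ 2) :=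
        mul_le_mul_of_nonneg_left h3 hlam.le
      linarith

end Pool.Agent.H466.TW
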