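import Pool.Agent.H466.TW.C3
import Pool.Graph.R_seed8.Y19.QT.Fin

/-!
# Almost all quadratic twists: assembly
-/

set_option autoImplicit false

open Complex MeasureTheory Filter Topology Set MatrixGroups CongruenceSubgroup
open UpperHalfPlane hiding I re im
open scoped ComplexConjugate

namespace Pool.Agent.H466.TW

open Pool.Agent.Y19.QT
open Pool.Agent.H306R2.RZ (js)
open Pool.Agent.H466.HF

lemma card_sqf_le (Y : ℕ) : ((sqf Y).card : ℝ) ≤ 3 * Y + 1 := by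
  rcases Nat.eq_zero_or_pos Y with h | h
  · rw [h]
    have h1 : (sqf 0).card ≤ (Finset.Icc (-((0 : ℕ) : ℤ)) ((0 : ℕ) : ℤ)).card := Finset.card_filter_le _ _
    rw [Int.card_Icc] at h1
    have h2 : (sqf 0).card ≤ 1 := by omega
    have h3 : ((sqf 0).card : ℝ) ≤ 1 := by exact_mod_cast h2
    simpa using h3
  · have := Pool.Agent.Y474.QTZ6.card_sqf h
    linarith

lemma log_pow_le {X : ℕ} (hX : 3 ≤ X) (K : ℕ) :
    Real.log X ^ K ≤ 2 ^ K * K.factorial * Real.sqrt X := by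
  have hL := Pool.Agent.Y703.QT12.log_ge_one hX
  have hX0 : (0 : ℝ) < X := by exact_mod_cast (by omega : 0 < X)
  have h := Real.pow_div_factorial_le_exp (Real.log X / 2) (by linarith) K
  have h2 : (0 : ℝ) < K.factorial := by exact_mod_cast K.factorial_pos
  have e : Real.exp (Real.log X / 2) = Real.sqrt X := by
    rw [Real.exp_half, Real.exp_log hX0]
  rw [e, div_le_iff₀ h2, div_pow, div_le_iff₀ (by positivity)] at h
  linarith

/-- the newform of `E_d` belongs to the family -/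
theorem rel_of {a b : ℤ} {Q : ℕ} {lam : ℕ → ℝ} (T : Twists Q lam)
    (hQ : ∀ p : ℕ, p.Prime → (p : ℤ) ∣ 2 * (4 * a ^ 3 + 27 * b ^ 2) → p ∣ Q)
    (hlam : ∀ p : ℕ, p.Prime → ¬ p ∣ Q → lam p = ap a b p / Real.sqrt p)
    {d : ℤ} (hd : Squarefree d) {N : ℕ} {f : CuspForm (Gamma0 N : Subgroup (GL (Fin 2) ℝ)) 2} {w : ℝ}
    (hnew : W388.IsNewf N 2 f w) (hgood : ∀ p : ℕ, p.Prime → ¬ p ∣ N → |W388.lamf f p| ≤ 2)
    (hbad : ∀ p : ℕ, p.Prime → p ∣ N → |W388.lamf f p| ≤ 1)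
    (points : ∀ p : ℕ, p.Prime → ¬ (p : ℤ) ∣ 2 * (4 * (a * d ^ 2) ^ 3 + 27 * (b * d ^ 3) ^ 2) →
      ¬ p ∣ N ∧ (qExpansion 1 f).coeff p = (ap (a * d ^ 2) (b * d ^ 3) p : ℂ))
    (additive : ∀ p : ℕ, p.Prime → 5 ≤ p → (p : ℤ) ∣ a * d ^ 2 → (p : ℤ) ∣ b * d ^ 3 →
      ¬ ((p : ℤ) ^ 4 ∣ a * d ^ 2 ∧ (p : ℤ) ^ 6 ∣ b * d ^ 3) →
      p ∣ N ∧ (qExpansion 1 f).coeff p = 0) : Rel Q lam d N f w := by
  refine ⟨hnew, hgood, hbad, fun p hp hpQ hpd => ?_, fun p hp hpQ hpd => ?_⟩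
  · have hpΔ : ¬ (p : ℤ) ∣ 2 * (4 * a ^ 3 + 27 * b ^ 2) := fun h => hpQ (hQ p hp h)
    have hpi : Prime (p : ℤ) := Nat.prime_iff_prime_int.mp hp
    have hp2 : p ≠ 2 := by
      rintro rfl
      exact hpΔ (dvd_mul_right _ _)
    have e : 2 * (4 * (a * d ^ 2) ^ 3 + 27 * (b * d ^ 3) ^ 2) =
        2 * (4 * a ^ 3 + 27 * b ^ 2) * d ^ 6 := by ring
    obtain ⟨h1, h2⟩ := points p hp (by
      rw [e]
      intro h
      rcases hpi.dvd_or_dvd h with h | h
      · exact hpΔ h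
      · exact hpd (hpi.dvd_of_dvd_pow h))
    refine ⟨h1, ?_⟩
    have h3 := Pool.Agent.Y705.QT.ap_twist a b d p hp hp2 hpd
    unfold W388.lamf
    rw [h2, hlam p hp hpQ]
    have e1 : ((p : ℝ) ^ ((((2 : ℤ) : ℝ) - 1) / 2)) = Real.sqrt p := by
      rw [Real.sqrt_eq_rpow]
      norm_num
    have e2 : ((ap (a * d ^ 2) (b * d ^ 3) p : ℤ) : ℂ).re = (ap (a * d ^ 2) (b * d ^ 3) p : ℝ) := by
      simp
    rw [e1, e2, h3]
    ring
  · have hp5 : 5 ≤ p := by
      by_contra h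
      exact hpQ (T.hecke.small p hp (by omega))
    have hpi : Prime (p : ℤ) := Nat.prime_iff_prime_int.mp hp
    obtain ⟨e, he⟩ := hpd
    have hpe : ¬ (p : ℤ) ∣ e := by
      intro ⟨c, hc⟩
      have h1 : (p : ℤ) * p ∣ d := ⟨c, by rw [he, hc]; ring⟩
      have h2 := hd (p : ℤ) h1
      exact hpi.not_unit h2
    have hp0 : (p : ℤ) ≠ 0 := hpi.ne_zero
    have h1 : ¬ ((p : ℤ) ^ 4 ∣ a * d ^ 2 ∧ (p : ℤ) ^ 6 ∣ b * d ^ 3) := by
      rintro ⟨⟨c, hc⟩, ⟨c', hc'⟩⟩
      have h2 : (p : ℤ) ∣ a := by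
        have h3 : a * e ^ 2 = (p : ℤ) ^ 2 * c := by
          have h4 : (p : ℤ) ^ 2 * (a * e ^ 2) = (p : ℤ) ^ 2 * ((p : ℤ) ^ 2 * c) := by
            rw [he] at hc
            linear_combination hc
          exact mul_left_cancel₀ (pow_ne_zero 2 hp0) h4
        have h5 : (p : ℤ) ∣ a * e ^ 2 := ⟨p * c, by rw [h3]; ring⟩
        rcases hpi.dvd_or_dvd h5 with h | h
        · exact h
        · exact absurd (hpi.dvd_of_dvd_pow h) hpe
      have h2' : (p : ℤ) ∣ b := by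
        have h3 : b * e ^ 3 = (p : ℤ) ^ 3 * c' := by
          have h4 : (p : ℤ) ^ 3 * (b * e ^ 3) = (p : ℤ) ^ 3 * ((p : ℤ) ^ 3 * c') := by
            rw [he] at hc'
            linear_combination hc'
          exact mul_left_cancel₀ (pow_ne_zero 3 hp0) h4
        have h5 : (p : ℤ) ∣ b * e ^ 3 := ⟨p ^ 2 * c', by rw [h3]; ring⟩
        rcases hpi.dvd_or_dvd h5 with h | h
        · exact h
        · exact absurd (hpi.dvd_of_dvd_pow h) hpe
      apply hpQ
      apply hQ p hp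
      obtain ⟨x, hx⟩ := h2
      obtain ⟨y, hy⟩ := h2'
      refine ⟨2 * (4 * p ^ 2 * x ^ 3 + 27 * p * y ^ 2), ?_⟩
      rw [hx, hy]
      ring
    obtain ⟨h2, h3⟩ := additive p hp hp5 ⟨a * d * e, by rw [he]; ring⟩ ⟨b * d ^ 2 * e, by rw [he]; ring⟩ h1
    refine ⟨h2, ?_⟩
    unfold W388.lamf
    rw [h3]
    simp

/-- **assembly** -/
theorem twists_main {Q : ℕ} {lam : ℕ → ℝ} (T : Twists Q lam) (K : ℕ) : ∃ C : ℝ, 1 ≤ C ∧
    ∀ X : ℕ, 3 ≤ X → ∃ S : Finset ℤ, (S.card : ℝ) ≤ C * X / Real.log X ^ K ∧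
    ∀ d : ℤ, Squarefree d → |d| ≤ X → d ∉ S → 
    ∀ (N : ℕ) [NeZero N] (f : CuspForm (Gamma0 N : Subgroup (GL (Fin 2) ℝ)) 2) (w : ℝ),
      Rel Q lam d N f w →
      (∀ s : ℂ, 1 / 2 + 1 / Real.log X ≤ s.re →
        ‖LL (gE f) 0 (s - 1 / 2)‖ ≤ Real.exp (C * el X s.im) *
          ‖gamE (2 * Real.pi / Real.sqrt N) (s - 1 / 2)‖) ∧
      (∀ s : ℂ, 1 / 2 + C * el X s.im / Real.log X ≤ s.re →
        Real.exp (-(C * el X s.im)) * ‖gamE (2 * Real.pi / Real.sqrt N) (s - 1 / 2)‖ ≤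
          ‖LL (gE f) 0 (s - 1 / 2)‖) ∧
      (∀ (lam : ℝ) (z : ℂ), 0 < lam → lam ≤ 1 → C * el X z.im ≤ lam * Real.log X ^ 2 →
        LL (gE f) lam z = 0 → z.re = 0 ∧ deriv (LL (gE f) lam) z ≠ 0) := by
  classical
  obtain ⟨C0, w0, hC0, hw0, hgood⟩ := good_of T K
  obtain ⟨C1, hC1, hsize⟩ := size_newf T w0
  obtain ⟨C2, L0, hC2, hflow⟩ := flow_good T w0
  set F := (K.factorial : ℝ) with hF
  have hF0 : 0 < F := by rw [hF]; exact_mod_cast K.factorial_pos
  set C := C0 + C1 + C2 + 4 * (2 ^ K * F) + 4 * |L0| ^ K with hCdef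
  have hLK : 0 ≤ |L0| ^ K := by positivity
  have h2F : 0 ≤ 2 ^ K * F := by positivity
  refine ⟨C, by rw [hCdef]; linarith, fun X hX => ?_⟩
  have hL := Pool.Agent.Y703.QT12.log_ge_one hX
  set L := Real.log X with hLdef
  have hLp : 0 < L := by linarith
  have hX0 : (0 : ℝ) < X := by exact_mod_cast (by omega : 0 < X)
  have hX1 : (1 : ℝ) ≤ X := by exact_mod_cast (by omega : 1 ≤ X)
  have hLKp : 0 < L ^ K := by positivity
  rcases lt_or_ge L L0 with hsmall | hbig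
  · refine ⟨sqf X, ?_, fun d hd hdX hdS => absurd (mem_sqf.2 ⟨hdX, hd⟩) hdS⟩
    rw [le_div_iff₀ hLKp]
    have h1 := card_sqf_le X
    have h2 : L ^ K ≤ |L0| ^ K := pow_le_pow_left₀ hLp.le (hsmall.le.trans (le_abs_self _)) K
    calc ((sqf X).card : ℝ) * L ^ K ≤ (4 * X) * |L0| ^ K := by
          apply mul_le_mul (by linarith) h2 hLKp.le (by positivity)
      _ = (4 * |L0| ^ K) * X := by ring
      _ ≤ C * X := by
          apply mul_le_mul_of_nonneg_right _ hX0.le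
          rw [hCdef]; linarith
  · obtain ⟨S0, hS0, hcard, hG⟩ := hgood X hX
    refine ⟨S0 ∪ sqf (Nat.sqrt X), ?_, fun d hd hdX hdS N _ f w R => ?_⟩
    · have h1 : ((S0 ∪ sqf (Nat.sqrt X)).card : ℝ) ≤ S0.card + (sqf (Nat.sqrt X)).card := by
        exact_mod_cast Finset.card_union_le _ _
      have h2 := card_sqf_le (Nat.sqrt X)
      have h3 : ((Nat.sqrt X : ℕ) : ℝ) ≤ Real.sqrt X := Real.nat_sqrt_le_real_sqrt
      have h4 : 1 ≤ Real.sqrt X := by
        rw [Real.one_le_sqrt]; exact hX1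
      have h5 := log_pow_le hX K
      have h6 : 4 * Real.sqrt X ≤ 4 * (2 ^ K * F) * X / L ^ K := by
        rw [le_div_iff₀ hLKp]
        have h7 : Real.sqrt X * Real.sqrt X = X := Real.mul_self_sqrt hX0.le
        calc 4 * Real.sqrt X * L ^ K ≤ 4 * Real.sqrt X * (2 ^ K * F * Real.sqrt X) :=
              mul_le_mul_of_nonneg_left h5 (by positivity)
          _ = 4 * (2 ^ K * F) * (Real.sqrt X * Real.sqrt X) := by ring
          _ = _ := by rw [h7]
      have h8 : C0 * X / L ^ K + 4 * (2 ^ K * F) * X / L ^ K ≤ C * X / L ^ K := by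
        rw [← add_div]
        apply div_le_div_of_nonneg_right _ hLKp.le
        rw [← add_mul]
        apply mul_le_mul_of_nonneg_right _ hX0.le
        rw [hCdef]; linarith
      linarith
    · rw [Finset.mem_union, not_or] at hdS
      have hdsq : d ∈ sqf X := mem_sqf.2 ⟨hdX, hd⟩
      have hGd := hG d hdsq hdS.1
      have hel := fun t : ℝ => el_ge hX t
      have hbigd : (X : ℝ) ≤ |(d : ℝ)| ^ 2 := by
        have h1 : ¬ (|d| ≤ (Nat.sqrt X : ℕ)) := fun h => hdS.2 (mem_sqf.2 ⟨h, hd⟩)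
        have h2 : ((Nat.sqrt X : ℕ) : ℤ) + 1 ≤ |d| := by omega
        have h3 : X < (Nat.sqrt X + 1) * (Nat.sqrt X + 1) := Nat.lt_succ_sqrt X
        have h4 : (X : ℤ) ≤ |d| ^ 2 := by
          have h5 : ((Nat.sqrt X : ℕ) : ℤ) + 1 ≥ 0 := by positivity
          have h6 : (X : ℤ) < (((Nat.sqrt X : ℕ) : ℤ) + 1) * (((Nat.sqrt X : ℕ) : ℤ) + 1) := by
            exact_mod_cast h3
          nlinarith
        have h5 : ((X : ℤ) : ℝ) ≤ ((|d| ^ 2 : ℤ) : ℝ) := by exact_mod_cast h4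
        push_cast at h5
        exact h5
      refine ⟨fun s hs => ?_, fun s hs => ?_, fun lam z h1 h2 h3 h4 => ?_⟩
      · have hL1 : 0 < 1 / L := by positivity
        rw [newf_eq T hd R (by linarith), norm_mul, mul_comm]
        apply mul_le_mul_of_nonneg_right _ (norm_nonneg _)
        refine ((hsize X d hX hd hGd N f w R s).1 hs).trans ?_
        apply Real.exp_le_exp.mpr
        apply mul_le_mul_of_nonneg_right _ (by linarith [hel s.im])
        rw [hCdef]; linarith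
      · have h5 : C1 * el X s.im / L ≤ C * el X s.im / L := by
          apply div_le_div_of_nonneg_right _ hLp.le
          apply mul_le_mul_of_nonneg_right _ (by linarith [hel s.im])
          rw [hCdef]; linarith
        have h6 : 0 ≤ C1 * el X s.im / L := by
          have := hel s.im
          positivity
        rw [newf_eq T hd R (by linarith), norm_mul, mul_comm]
        apply mul_le_mul_of_nonneg_left _ (norm_nonneg _)
        refine le_trans ?_ ((hsize X d hX hd hGd N f w R s).2 (by linarith))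
        apply Real.exp_le_exp.mpr
        apply neg_le_neg
        apply mul_le_mul_of_nonneg_right _ (by linarith [hel s.im])
        rw [hCdef]; linarith
      · refine hflow X d hX hbig hd hbigd hGd N f w R lam z h1 h2 ?_ h4
        refine le_trans ?_ h3
        apply mul_le_mul_of_nonneg_right _ (by linarith [hel z.im])
        rw [hCdef]; linarith

end Pool.Agent.H466.TW
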